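import Mathlib

set_option autoImplicit false

namespace Pool.Agent.Lib.MP_7eef47_al

/-- The word metric of `G` for the generating set `S`: the path metric of the Cayley graph. -/
noncomputable def wordDist {G : Type} [Group G] (S : Set G) (x y : G) : ℝ :=
  ((SimpleGraph.mulCayley S).dist x y : ℝ)

/-- `γ` restricted to `[a, b]` is a geodesic segment. -/
def IsGeodesic {X : Type} [MetricSpace X] (γ : ℝ → X) (a b : ℝ) : Prop :=
  a ≤ b ∧ ∀ s ∈ Set.Icc a b, ∀ t ∈ Set.Icc a b, dist (γ s) (γ t) = |s - t|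

/-- `X` is a geodesic metric space satisfying Gromov's four-point condition with constant `δ`. -/
def IsHyperbolic (X : Type) [MetricSpace X] (δ : ℝ) : Prop :=
  (∀ x y : X, ∃ (γ : ℝ → X) (a b : ℝ), IsGeodesic γ a b ∧ γ a = x ∧ γ b = y) ∧
    ∀ x y z w : X,
      dist x y + dist z w ≤ max (dist x z + dist y w) (dist x w + dist y z) + 2 * δ

/-- The data of a hierarchically hyperbolic group structure (Behrstock, Hagen, Sisto) on `G`, with
point valued projections. -/
structure HData (G : Type) [Group G] where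
  /-- the index set of domains -/
  I : Type
  /-- nesting -/
  [nesting : PartialOrder I]
  /-- the action on the domains -/
  [action : MulAction G I]
  /-- the hyperbolic spaces -/
  C : I → Type
  [metric : ∀ U, MetricSpace (C U)]
  /-- orthogonality -/
  orth : I → I → Prop
  /-- the projections to the hyperbolic spaces -/
  proj : ∀ U, G → C U
  /-- `rho V W` is the relative projection of `V` to `C W`, used for `V < W` or `V` transverse to `W` -/
  rho : I → ∀ W, C W
  /-- `down W V` is the downward relative projection, used for `V < W` -/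
  down : ∀ W V, C W → C V
  /-- the isometries `C U → C (g • U)` -/
  iso : ∀ (g : G) (U V : I), g • U = V → C U ≃ᵢ C V

attribute [instance] HData.nesting HData.action HData.metric

namespace HData

variable {G : Type} [Group G] (D : HData G)

/-- Transversality: neither orthogonal nor comparable. -/
def Transverse (V W : D.I) : Prop := ¬ D.orth V W ∧ ¬ V ≤ W ∧ ¬ W ≤ V

/-- Hyperbolicity of the spaces; projections are coarsely Lipschitz and coarsely onto. -/
def Projections (S : Set G) (E : ℝ) : Prop :=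
  (∀ U, IsHyperbolic (D.C U) E) ∧
  (∀ U x y, dist (D.proj U x) (D.proj U y) ≤ E * wordDist S x y + E) ∧
  ∀ U (p : D.C U), ∃ x, dist (D.proj U x) p ≤ E

/-- Nesting, orthogonality, containers, finite complexity. -/
def Relations (E : ℝ) : Prop :=
  (∃ T : D.I, ∀ U, U ≤ T) ∧
  (∀ V W, D.orth V W → D.orth W V) ∧
  (∀ V W, D.orth V W → ¬ V ≤ W) ∧
  (∀ U V W, V ≤ W → D.orth W U → D.orth V U) ∧
  (∀ T U, U ≤ T → (∃ V, V ≤ T ∧ D.orth V U) →
    ∃ W, W < T ∧ ∀ V, V ≤ T → D.orth V U → V ≤ W) ∧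
  ∀ F : Finset D.I, (∀ V ∈ F, ∀ W ∈ F, V ≤ W ∨ W ≤ V) → (F.card : ℝ) ≤ E

/-- The three consistency conditions. -/
def Consistency (E : ℝ) : Prop :=
  (∀ V W, D.Transverse V W → ∀ x,
    min (dist (D.proj W x) (D.rho V W)) (dist (D.proj V x) (D.rho W V)) ≤ E) ∧
  (∀ V W, V < W → ∀ x,
    min (dist (D.proj W x) (D.rho V W)) (dist (D.proj V x) (D.down W V (D.proj W x))) ≤ E) ∧
  ∀ U V W, U ≤ V → (V < W ∨ (D.Transverse V W ∧ ¬ D.orth W U)) →
    dist (D.rho U W) (D.rho V W) ≤ E

/-- The large link axiom. -/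
def LargeLinks (E : ℝ) : Prop :=
  ∀ W x y, ∃ F : Finset D.I,
    (F.card : ℝ) ≤ E * dist (D.proj W x) (D.proj W y) + E ∧
    (∀ T ∈ F, T < W ∧ dist (D.proj W x) (D.rho T W) ≤ E * dist (D.proj W x) (D.proj W y) + E) ∧
    ∀ V, V < W → (∃ T ∈ F, V ≤ T) ∨ dist (D.proj V x) (D.proj V y) < E

/-- The bounded geodesic image axiom. -/
def BoundedGeodesicImage (E : ℝ) : Prop :=
  ∀ V W, V < W → ∀ (γ : ℝ → D.C W) (a b : ℝ), IsGeodesic γ a b →
    (∀ s ∈ Set.Icc a b, ∀ t ∈ Set.Icc a b, dist (D.down W V (γ s)) (D.down W V (γ t)) ≤ E) ∨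
      ∃ t ∈ Set.Icc a b, dist (γ t) (D.rho V W) ≤ E

/-- The axiom of realization for families of pairwise orthogonal domains. -/
def Realization (E : ℝ) : Prop :=
  ∀ F : Set D.I, F.Pairwise D.orth → ∀ p : ∀ U, D.C U, ∃ x, ∀ V ∈ F,
    dist (D.proj V x) (p V) ≤ E ∧
      ∀ W, (V < W ∨ D.Transverse V W) → dist (D.proj W x) (D.rho V W) ≤ E

/-- The uniqueness axiom. -/
def Uniqueness (S : Set G) : Prop :=
  ∀ r : ℝ, ∃ θ : ℝ, ∀ x y, θ ≤ wordDist S x y → ∃ U, r ≤ dist (D.proj U x) (D.proj U y)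

/-- The action on domains is cofinite and keeps nesting and orthogonality; the isometries form an
action. -/
def Action : Prop :=
  (∃ F : Finset D.I, ∀ U : D.I, ∃ g : G, g • U ∈ F) ∧
  (∀ (g : G) (V W : D.I), V ≤ W → g • V ≤ g • W) ∧
  (∀ (g : G) (V W : D.I), D.orth V W → D.orth (g • V) (g • W)) ∧
  ∀ (g h : G) (U V W : D.I) (hUV : h • U = V) (hVW : g • V = W) (hUW : (g * h) • U = W) p,
    D.iso (g * h) U W hUW p = D.iso g V W hVW (D.iso h U V hUV p)

/-- The isometries commute with all projections. -/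
def Equivariance (E : ℝ) : Prop :=
  (∀ (g : G) (U U' : D.I) (h : g • U = U') (x : G),
    D.iso g U U' h (D.proj U x) = D.proj U' (g * x)) ∧
  (∀ (g : G) (V W W' : D.I) (h : g • W = W'), (V < W ∨ D.Transverse V W) →
    D.iso g W W' h (D.rho V W) = D.rho (g • V) W') ∧
  ∀ (g : G) (V V' W W' : D.I) (hV : g • V = V') (hW : g • W = W'), V < W →
    ∀ p, E < dist p (D.rho V W) →
      D.iso g V V' hV (D.down W V p) = D.down W' V' (D.iso g W W' hW p)

end HData

/-- `G` with the word metric of `S` carries a hierarchically hyperbolic group structure. -/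
def IsHHG {G : Type} [Group G] (S : Set G) : Prop :=
  ∃ (D : HData G) (E : ℝ), 1 ≤ E ∧ D.Projections S E ∧ D.Relations E ∧ D.Consistency E ∧
    D.LargeLinks E ∧ D.BoundedGeodesicImage E ∧ D.Realization E ∧ D.Uniqueness S ∧ D.Action ∧
    D.Equivariance E

/-- `H ∩ g H g⁻¹` is finite for every `g` outside `H`. -/
def AlmostMalnormal {G : Type} [Group G] (H : Subgroup G) : Prop :=
  ∀ g : G, g ∉ H → {x : G | x ∈ H ∧ g⁻¹ * x * g ∈ H}.Finite

/-- `γ` restricted to `[a, b]` is a `(K, C)`-quasi-geodesic for the word metric. -/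
def IsQuasiGeodesic {G : Type} [Group G] (S : Set G) (K C : ℝ) (γ : ℝ → G) (a b : ℝ) : Prop :=
  a ≤ b ∧ ∀ s ∈ Set.Icc a b, ∀ t ∈ Set.Icc a b,
    |s - t| / K - C ≤ wordDist S (γ s) (γ t) ∧ wordDist S (γ s) (γ t) ≤ K * |s - t| + C

/-- Quasi-geodesics with endpoints in `H` stay uniformly close to `H`. -/
def StronglyQuasiconvex {G : Type} [Group G] (S : Set G) (H : Subgroup G) : Prop :=
  ∀ K C : ℝ, 1 ≤ K → 0 ≤ C → ∃ M : ℝ, ∀ (γ : ℝ → G) (a b : ℝ), IsQuasiGeodesic S K C γ a b →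
    γ a ∈ H → γ b ∈ H → ∀ t ∈ Set.Icc a b, ∃ h ∈ H, wordDist S (γ t) h ≤ M

end Pool.Agent.Lib.MP_7eef47_al
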