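import Mathlib
import Pool.Agent.Lib.MP_7eef47_al.Defs

set_option autoImplicit false

namespace Pool.Agent.Lib.MP_7eef47_al

/-- Two points joined by a geodesic segment. -/
def Joined' {X : Type} [MetricSpace X] (x y : X) : Prop :=
  ∃ (γ : ℝ → X) (a b : ℝ), IsGeodesic γ a b ∧ γ a = x ∧ γ b = y

section geo
variable {X : Type} [MetricSpace X]

theorem Joined'.refl (x : X) : Joined' x x :=
  ⟨fun _ => x, 0, 0, ⟨le_rfl, fun s hs t ht => by
    have h1 : s = 0 := le_antisymm hs.2 hs.1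
    have h2 : t = 0 := le_antisymm ht.2 ht.1
    simp [h1, h2]⟩, rfl, rfl⟩

theorem Joined'.symm {x y : X} (h : Joined' x y) : Joined' y x := by
  obtain ⟨γ, a, b, ⟨hab, hγ⟩, ha, hb⟩ := h
  refine ⟨fun t => γ (-t), -b, -a, ⟨by linarith, fun s hs t ht => ?_⟩, by simpa, by simpa⟩
  rw [hγ (-s) ⟨by linarith [hs.2], by linarith [hs.1]⟩ (-t) ⟨by linarith [ht.2], by linarith [ht.1]⟩]
  rw [show -s - -t = -(s - t) by ring, abs_neg]

theorem Joined'.trans {x y z : X} (h1 : Joined' x y) (h2 : Joined' y z)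
    (hd : dist x z = dist x y + dist y z) : Joined' x z := by
  obtain ⟨γ, a, b, ⟨hab, hγ⟩, ha, hb⟩ := h1
  obtain ⟨η, c, e, ⟨hce, hη⟩, hc, he⟩ := h2
  have hxy : dist x y = b - a := by
    rw [← ha, ← hb, hγ a ⟨le_rfl, hab⟩ b ⟨hab, le_rfl⟩, abs_sub_comm, abs_of_nonneg (by linarith)]
  have hyz : dist y z = e - c := by
    rw [← hc, ← he, hη c ⟨le_rfl, hce⟩ e ⟨hce, le_rfl⟩, abs_sub_comm, abs_of_nonneg (by linarith)]
  have key : ∀ s ∈ Set.Icc a b, ∀ t ∈ Set.Icc c e, dist (γ s) (η t) = (b - s) + (t - c) := by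
    intro s hs t ht
    have e1 : dist (γ s) y = b - s := by
      rw [← hb, hγ s hs b ⟨hab, le_rfl⟩, abs_sub_comm, abs_of_nonneg (by linarith [hs.2])]
    have e2 : dist y (η t) = t - c := by
      rw [← hc, hη c ⟨le_rfl, hce⟩ t ht, abs_sub_comm, abs_of_nonneg (by linarith [ht.1])]
    have e3 : dist x (γ s) = s - a := by
      rw [← ha, hγ a ⟨le_rfl, hab⟩ s hs, abs_sub_comm, abs_of_nonneg (by linarith [hs.1])]
    have e4 : dist (η t) z = e - t := by
      rw [← he, hη t ht e ⟨hce, le_rfl⟩, abs_sub_comm, abs_of_nonneg (by linarith [ht.2])]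
    have t1 := dist_triangle (γ s) y (η t)
    have t2 := dist_triangle4 x (γ s) (η t) z
    linarith
  refine ⟨fun t => if t ≤ b then γ t else η (t - b + c), a, b + (e - c), ⟨by linarith, ?_⟩, ?_, ?_⟩
  · intro s hs t ht
    by_cases h1 : s ≤ b <;> by_cases h2 : t ≤ b
    · simp only [h1, h2, if_true]
      exact hγ s ⟨hs.1, h1⟩ t ⟨ht.1, h2⟩
    · simp only [h1, h2, if_true, if_false]
      push Not at h2
      rw [key s ⟨hs.1, h1⟩ _ ⟨by linarith, by linarith [ht.2]⟩, abs_sub_comm,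
        abs_of_nonneg (by linarith)]
      ring
    · simp only [h1, h2, if_true, if_false]
      push Not at h1
      rw [dist_comm, key t ⟨ht.1, h2⟩ _ ⟨by linarith, by linarith [hs.2]⟩,
        abs_of_nonneg (by linarith)]
      ring
    · simp only [h1, h2, if_false]
      push Not at h1 h2
      rw [hη _ ⟨by linarith, by linarith [hs.2]⟩ _ ⟨by linarith, by linarith [ht.2]⟩]
      congr 1
      ring
  · simp [hab, ha]
  · by_cases h : b + (e - c) ≤ b
    · have hec : e = c := by linarith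
      simp only [h, if_true]
      rw [hec, sub_self, add_zero, hb, ← hc, ← he, hec]
    · simp only [h, if_false]
      rw [show b + (e - c) - b + c = e by ring, he]

end geo

/-- A length function on a group which comes from an action on a simplicial tree. -/
structure TreeLen (G : Type) [Group G] where
  len : G → ℕ
  len_one : len 1 = 0
  len_inv : ∀ g, len g⁻¹ = len g
  len_mul : ∀ g h, len (g * h) ≤ len g + len h
  step : ∀ g n, len g = n + 1 → ∃ s, len s = 1 ∧ len (s⁻¹ * g) = n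
  parity : ∀ g h, (len (g * h) + len g + len h) % 2 = 0
  four : ∀ a b c : G, len (a⁻¹ * c) + len b ≤ max (len (a⁻¹ * b) + len c) (len (b⁻¹ * c) + len a)

namespace TreeLen

variable {G : Type} [Group G] (L : TreeLen G)

/-- the pseudo-distance -/
def d (u v : G) : ℕ := L.len (u⁻¹ * v)

theorem d_self (u : G) : L.d u u = 0 := by simp [d, L.len_one]

theorem d_comm (u v : G) : L.d u v = L.d v u := by
  rw [d, d, ← L.len_inv]; simp

theorem d_tri (u v w : G) : L.d u w ≤ L.d u v + L.d v w := by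
  have := L.len_mul (u⁻¹ * v) (v⁻¹ * w)
  simpa [d, mul_assoc] using this

theorem d_par (u v w : G) : (L.d u w + L.d u v + L.d v w) % 2 = 0 := by
  have := L.parity (u⁻¹ * v) (v⁻¹ * w)
  simpa [d, mul_assoc] using this

theorem d_mul (g u v : G) : L.d (g * u) (g * v) = L.d u v := by
  simp [d, mul_assoc]

theorem d_four (x y z w : G) :
    L.d x y + L.d z w ≤ max (L.d x z + L.d y w) (L.d x w + L.d y z) := by
  have h := L.four (w⁻¹ * x) (w⁻¹ * z) (w⁻¹ * y)
  have e1 : L.len ((w⁻¹ * x)⁻¹ * (w⁻¹ * y)) = L.d x y := by simp [d, mul_assoc]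
  have e2 : L.len ((w⁻¹ * x)⁻¹ * (w⁻¹ * z)) = L.d x z := by simp [d, mul_assoc]
  have e3 : L.len ((w⁻¹ * z)⁻¹ * (w⁻¹ * y)) = L.d y z := by
    rw [d_comm]; simp [d, mul_assoc]
  have e4 : L.len (w⁻¹ * x) = L.d x w := by rw [d_comm]; rfl
  have e5 : L.len (w⁻¹ * y) = L.d y w := by rw [d_comm]; rfl
  have e6 : L.len (w⁻¹ * z) = L.d z w := by rw [d_comm]; rfl
  rw [e1, e2, e3, e4, e5, e6] at h
  omega

theorem d_step (u v : G) (n : ℕ) (h : L.d u v = n + 1) : ∃ w, L.d u w = 1 ∧ L.d w v = n := by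
  obtain ⟨s, hs1, hs2⟩ := L.step _ n h
  exact ⟨u * s, by simpa [d] using hs1, by simpa [d, mul_assoc] using hs2⟩

/-- distance function of the point at parameter `t` on the edge from `u` to `v` -/
noncomputable def edgeFun (u v : G) (t : ℝ) : G → ℝ :=
  fun w => min ((L.d u w : ℝ) + t) ((L.d v w : ℝ) + (L.d u v - t))

/-- The geometric realisation of the tree. -/
def Pt : Type :=
  {f : G → ℝ // ∃ (u v : G) (t : ℝ), L.d u v ≤ 1 ∧ 0 ≤ t ∧ t ≤ L.d u v ∧ f = L.edgeFun u v t}

theorem edgeFun_near (u v : G) (t : ℝ) (h0 : 0 ≤ t) (_h1 : t ≤ L.d u v) (w : G) :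
    |L.edgeFun u v t w - L.d u w| ≤ t := by
  have h : (L.d u w : ℝ) ≤ L.d u v + L.d v w := by exact_mod_cast L.d_tri u v w
  unfold edgeFun
  rw [abs_le]
  constructor
  · have : (L.d u w : ℝ) - t ≤ min ((L.d u w : ℝ) + t) ((L.d v w : ℝ) + (L.d u v - t)) :=
      le_min (by linarith) (by linarith)
    linarith
  · have := min_le_left ((L.d u w : ℝ) + t) ((L.d v w : ℝ) + (L.d u v - t))
    linarith

theorem d_abs (u v w : G) : |(L.d u w : ℝ) - L.d v w| ≤ L.d u v := by
  have h1 : (L.d u w : ℝ) ≤ L.d u v + L.d v w := by exact_mod_cast L.d_tri u v w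
  have h2 : (L.d v w : ℝ) ≤ L.d v u + L.d u w := by exact_mod_cast L.d_tri v u w
  rw [L.d_comm v u] at h2
  rw [abs_le]; constructor <;> linarith

theorem bdd (f g : L.Pt) : BddAbove (Set.range fun w => |f.1 w - g.1 w|) := by
  obtain ⟨u, v, t, -, h0, h1, hf⟩ := f.2
  obtain ⟨u', v', t', -, h0', h1', hg⟩ := g.2
  refine ⟨t + L.d u u' + t', ?_⟩
  rintro _ ⟨w, rfl⟩
  have a1 := L.edgeFun_near u v t h0 h1 w
  have a2 := L.edgeFun_near u' v' t' h0' h1' w
  have a3 := L.d_abs u u' w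
  rw [hf, hg]
  rw [abs_le] at *
  constructor <;> linarith [a1.1, a1.2, a2.1, a2.2, a3.1, a3.2]

noncomputable instance instMetricPt : MetricSpace L.Pt where
  dist f g := ⨆ w, |f.1 w - g.1 w|
  dist_self f := by simp
  dist_comm f g := by simp only [abs_sub_comm]
  dist_triangle f g h := by
    refine ciSup_le fun w => ?_
    have a1 := le_ciSup (L.bdd f g) w
    have a2 := le_ciSup (L.bdd g h) w
    have a3 := abs_sub_le (f.1 w) (g.1 w) (h.1 w)
    linarith
  eq_of_dist_eq_zero := by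
    intro f g h
    apply Subtype.ext
    funext w
    have a1 := le_ciSup (L.bdd f g) w
    have a2 : |f.1 w - g.1 w| ≤ 0 := a1.trans (le_of_eq h)
    have := abs_nonpos_iff.mp a2
    linarith

theorem le_dist (f g : L.Pt) (w : G) : |f.1 w - g.1 w| ≤ dist f g := le_ciSup (L.bdd f g) w

theorem dist_le (f g : L.Pt) (r : ℝ) (h : ∀ w, |f.1 w - g.1 w| ≤ r) : dist f g ≤ r :=
  ciSup_le h

/-- the point on an edge -/
noncomputable def edgePt (u v : G) (h : L.d u v ≤ 1) (t : ℝ) : L.Pt :=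
  ⟨L.edgeFun u v (max 0 (min t (L.d u v))), u, v, _, h, le_max_left _ _,
    max_le (Nat.cast_nonneg _) (min_le_right _ _), rfl⟩

theorem edgePt_val (u v : G) (h : L.d u v ≤ 1) (t : ℝ) (h0 : 0 ≤ t) (h1 : t ≤ L.d u v) :
    (L.edgePt u v h t).1 = L.edgeFun u v t := by
  simp [edgePt, min_eq_left h1, max_eq_right h0]

/-- the vertex of a group element -/
noncomputable def vtx (u : G) : L.Pt := L.edgePt u u (by simp [d_self]) 0

theorem vtx_val (u w : G) : (L.vtx u).1 w = L.d u w := by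
  rw [vtx, edgePt_val _ _ _ _ _ le_rfl (Nat.cast_nonneg _)]
  simp [edgeFun, d_self]

theorem exists_edgePt (f : L.Pt) :
    ∃ u v, ∃ h : L.d u v ≤ 1, ∃ t : ℝ, 0 ≤ t ∧ t ≤ L.d u v ∧ f = L.edgePt u v h t := by
  obtain ⟨u, v, t, h, h0, h1, hf⟩ := f.2
  exact ⟨u, v, h, t, h0, h1, Subtype.ext (by rw [edgePt_val _ _ _ _ _ h0 h1, hf])⟩

theorem edgePt_zero (u v : G) (h : L.d u v ≤ 1) : L.edgePt u v h 0 = L.vtx u := by
  apply Subtype.ext
  funext w
  rw [vtx_val, edgePt_val _ _ _ _ _ le_rfl (Nat.cast_nonneg _)]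
  have h : (L.d u w : ℝ) ≤ L.d u v + L.d v w := by exact_mod_cast L.d_tri u v w
  simp only [edgeFun, add_zero, sub_zero]
  exact min_eq_left (by linarith)

theorem edgePt_swap (u v : G) (h : L.d u v ≤ 1) (h' : L.d v u ≤ 1) (t : ℝ) (h0 : 0 ≤ t)
    (h1 : t ≤ L.d u v) : L.edgePt u v h t = L.edgePt v u h' (L.d u v - t) := by
  apply Subtype.ext
  funext w
  rw [edgePt_val _ _ _ _ _ h0 h1, edgePt_val _ _ _ _ _ (by linarith) (by rw [L.d_comm v u]; linarith)]
  simp only [edgeFun]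
  rw [min_comm, L.d_comm v u]
  congr 1
  ring

theorem edgePt_congr (u v u' v' : G) (h : L.d u v ≤ 1) (h' : L.d u' v' ≤ 1) (t : ℝ)
    (hu : L.d u u' = 0) (hv : L.d v v' = 0) : L.edgePt u v h t = L.edgePt u' v' h' t := by
  have e1 : ∀ w, L.d u w = L.d u' w := fun w => by
    have a := L.d_tri u u' w
    have b := L.d_tri u' u w
    rw [L.d_comm u' u] at b
    omega
  have e2 : ∀ w, L.d v w = L.d v' w := fun w => by
    have a := L.d_tri v v' w
    have b := L.d_tri v' v w
    rw [L.d_comm v' v] at b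
    omega
  have e3 : L.d u v = L.d u' v' := by
    rw [e1, L.d_comm, e2, L.d_comm]
  apply Subtype.ext
  funext w
  simp only [edgePt, edgeFun, e1 w, e2 w, e3]

theorem dist_edgePt (u v : G) (h : L.d u v ≤ 1) (s t : ℝ) (hs0 : 0 ≤ s) (hs1 : s ≤ L.d u v)
    (ht0 : 0 ≤ t) (ht1 : t ≤ L.d u v) :
    dist (L.edgePt u v h s) (L.edgePt u v h t) = |s - t| := by
  apply le_antisymm
  · apply L.dist_le
    intro w
    rw [edgePt_val _ _ _ _ _ hs0 hs1, edgePt_val _ _ _ _ _ ht0 ht1]
    simp only [edgeFun]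
    refine (abs_min_sub_min_le_max _ _ _ _).trans (max_le ?_ ?_)
    · apply le_of_eq; congr 1; ring
    · rw [abs_sub_comm s t]; apply le_of_eq; congr 1; ring
  · have := L.le_dist (L.edgePt u v h s) (L.edgePt u v h t) u
    rw [edgePt_val _ _ _ _ _ hs0 hs1, edgePt_val _ _ _ _ _ ht0 ht1] at this
    simp only [edgeFun, d_self, L.d_comm v u, Nat.cast_zero, zero_add] at this
    rwa [min_eq_left (by linarith), min_eq_left (by linarith)] at this

theorem joined_edgePt (u v : G) (h : L.d u v ≤ 1) (s t : ℝ) (hs0 : 0 ≤ s) (hs1 : s ≤ L.d u v)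
    (ht0 : 0 ≤ t) (ht1 : t ≤ L.d u v) : Joined' (L.edgePt u v h s) (L.edgePt u v h t) := by
  have key : ∀ s t : ℝ, 0 ≤ s → t ≤ L.d u v → s ≤ t →
      Joined' (L.edgePt u v h s) (L.edgePt u v h t) := by
    intro s t h0 h1 hst
    exact ⟨L.edgePt u v h, s, t, ⟨hst, fun a ha b hb => L.dist_edgePt u v h a b
      (by linarith [ha.1]) (by linarith [ha.2]) (by linarith [hb.1]) (by linarith [hb.2])⟩, rfl, rfl⟩
  rcases le_total s t with hst | hst
  · exact key s t hs0 ht1 hst
  · exact (key t s ht0 hs1 hst).symm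

theorem dist_vtx (u v : G) : dist (L.vtx u) (L.vtx v) = L.d u v := by
  apply le_antisymm
  · apply L.dist_le
    intro w
    rw [vtx_val, vtx_val]
    exact L.d_abs u v w
  · have := L.le_dist (L.vtx u) (L.vtx v) v
    rw [vtx_val, vtx_val, d_self] at this
    simpa using this

theorem edgePt_one (u v : G) (h : L.d u v ≤ 1) : L.edgePt u v h (L.d u v) = L.vtx v := by
  rw [L.edgePt_swap u v h (by rwa [L.d_comm]) _ (Nat.cast_nonneg _) le_rfl, sub_self, edgePt_zero]

theorem joined_vtx (u v : G) : Joined' (L.vtx u) (L.vtx v) := by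
  induction h : L.d u v generalizing u with
  | zero =>
    have : L.vtx u = L.vtx v := by
      apply eq_of_dist_eq_zero
      rw [dist_vtx, h]; simp
    rw [this]; exact Joined'.refl _
  | succ n ih =>
    obtain ⟨w, h1, h2⟩ := L.d_step u v n h
    have j1 : Joined' (L.vtx u) (L.vtx w) := by
      have := L.joined_edgePt u w h1.le 0 (L.d u w) le_rfl (Nat.cast_nonneg _)
        (Nat.cast_nonneg _) le_rfl
      rwa [edgePt_zero, edgePt_one] at this
    refine j1.trans (ih w h2) ?_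
    rw [dist_vtx, dist_vtx, dist_vtx, h, h1, h2]
    push_cast; ring

theorem dist_edgePt_left (u v : G) (h : L.d u v ≤ 1) (t : ℝ) (h0 : 0 ≤ t) (h1 : t ≤ L.d u v) :
    dist (L.edgePt u v h t) (L.vtx u) = t := by
  rw [← L.edgePt_zero u v h, L.dist_edgePt u v h t 0 h0 h1 le_rfl (Nat.cast_nonneg _), sub_zero,
    abs_of_nonneg h0]

theorem joined_edgePt_left (u v : G) (h : L.d u v ≤ 1) (t : ℝ) (h0 : 0 ≤ t) (h1 : t ≤ L.d u v) :
    Joined' (L.edgePt u v h t) (L.vtx u) := by
  rw [← L.edgePt_zero u v h]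
  exact L.joined_edgePt u v h t 0 h0 h1 le_rfl (Nat.cast_nonneg _)

/-- Two edge points whose edges point away from each other. -/
theorem joined_away (u v u' v' : G) (h : L.d u v ≤ 1) (h' : L.d u' v' ≤ 1) (t t' : ℝ)
    (h0 : 0 ≤ t) (h1 : t ≤ L.d u v) (h0' : 0 ≤ t') (h1' : t' ≤ L.d u' v')
    (a1 : L.d u' v = L.d u u' + L.d u v) (a2 : L.d v' v = L.d u u' + L.d u v + L.d u' v') :
    Joined' (L.edgePt u v h t) (L.edgePt u' v' h' t') := by
  have e1 := L.dist_edgePt_left u v h t h0 h1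
  have e2 := L.dist_edgePt_left u' v' h' t' h0' h1'
  have e3 := L.dist_vtx u u'
  have low := L.le_dist (L.edgePt u' v' h' t') (L.edgePt u v h t) v
  rw [edgePt_val _ _ _ _ _ h0 h1, edgePt_val _ _ _ _ _ h0' h1'] at low
  simp only [edgeFun, d_self, a1, a2, Nat.cast_zero, zero_add, Nat.cast_add] at low
  rw [min_eq_left (by linarith), min_eq_right (by linarith)] at low
  have low' : t + L.d u u' + t' ≤ dist (L.edgePt u v h t) (L.edgePt u' v' h' t') := by
    rw [dist_comm]
    refine le_trans ?_ ((le_abs_self _).trans low)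
    apply le_of_eq; ring
  have t1 := dist_triangle (L.edgePt u v h t) (L.vtx u') (L.edgePt u' v' h' t')
  have t2 := dist_triangle (L.edgePt u v h t) (L.vtx u) (L.vtx u')
  rw [dist_comm (L.vtx u') (L.edgePt u' v' h' t')] at t1
  have j1 : Joined' (L.edgePt u v h t) (L.vtx u') :=
    (L.joined_edgePt_left u v h t h0 h1).trans (L.joined_vtx u u') (by linarith)
  refine j1.trans (L.joined_edgePt_left u' v' h' t' h0' h1').symm ?_
  rw [dist_comm (L.vtx u') (L.edgePt u' v' h' t')]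
  linarith

theorem nat_cases (x y A B C D : ℕ) (hx : x ≤ 1) (hy : y ≤ 1)
    (p1 : (A + x + C) % 2 = 0) (p2 : (B + x + D) % 2 = 0) (p3 : (A + y + B) % 2 = 0)
    (t1 : A ≤ x + C) (t2 : C ≤ x + A) (t3 : B ≤ x + D) (t4 : D ≤ x + B)
    (t5 : A ≤ y + B) (t6 : B ≤ y + A) (t7 : C ≤ y + D) (t8 : D ≤ y + C)
    (_t9 : x ≤ A + C) (t10 : x ≤ B + D)
    (f1 : A + D ≤ max (x + y) (B + C)) (f2 : B + C ≤ max (x + y) (A + D)) :
    (A = 0 ∧ D = 0) ∨ (B = 0 ∧ C = 0) ∨ (C = A + x ∧ D = A + x + y) ∨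
      (D = B + x ∧ C = B + x + y) ∨ (A = C + x ∧ B = C + x + y) ∨ (B = D + x ∧ A = D + x + y) := by
  have hC : C = A + x ∨ A = C + x := by omega
  have hB : B = A + y ∨ A = B + y := by omega
  have hD : D = B + x ∨ B = D + x := by omega
  rcases le_max_iff.mp f1 with f1 | f1 <;> rcases le_max_iff.mp f2 with f2 | f2 <;>
    rcases hC with hC | hC <;> rcases hB with hB | hB <;> rcases hD with hD | hD <;> omega

theorem joined_all (f g : L.Pt) : Joined' f g := by
  obtain ⟨u, v, h, t, h0, h1, rfl⟩ := L.exists_edgePt f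
  obtain ⟨u', v', h', t', h0', h1', rfl⟩ := L.exists_edgePt g
  have hs : L.d v u ≤ 1 := by rwa [L.d_comm]
  have hs' : L.d v' u' ≤ 1 := by rwa [L.d_comm]
  have c1 := L.d_comm u v
  have c2 := L.d_comm u' v'
  have c3 := L.d_comm u u'
  have c4 := L.d_comm u v'
  have c5 := L.d_comm v u'
  have c6 := L.d_comm v v'
  have p1 := L.d_par u v u'
  have p2 := L.d_par u v v'
  have p3 := L.d_par u' v' u
  have p4 := L.d_par u' v' v
  have t1 := L.d_tri u v u'
  have t2 := L.d_tri v u u'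
  have t3 := L.d_tri u v v'
  have t4 := L.d_tri v u v'
  have t5 := L.d_tri u' v' u
  have t6 := L.d_tri v' u' u
  have t7 := L.d_tri u' v' v
  have t8 := L.d_tri v' u' v
  have f1 := L.d_four u u' v v'
  have f2 := L.d_four u v' v u'
  have hcases : (L.d u u' = 0 ∧ L.d v v' = 0) ∨ (L.d u v' = 0 ∧ L.d v u' = 0) ∨
      (L.d u' v = L.d u u' + L.d u v ∧ L.d v' v = L.d u u' + L.d u v + L.d u' v') ∨
      (L.d v' v = L.d u v' + L.d u v ∧ L.d u' v = L.d u v' + L.d u v + L.d v' u') ∨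
      (L.d u' u = L.d v u' + L.d v u ∧ L.d v' u = L.d v u' + L.d v u + L.d u' v') ∨
      (L.d v' u = L.d v v' + L.d v u ∧ L.d u' u = L.d v v' + L.d v u + L.d v' u') := by
    have t9 := L.d_tri u u' v
    have t10 := L.d_tri u v' v
    rw [← c1, ← c2, ← c3, ← c4, ← c5, ← c6] at *
    exact nat_cases _ _ _ _ _ _ h h' p1 p2 p3 t1 t2 t3 t4 t5 t6 t7 t8 t9 t10 (by omega) (by omega)
  have r1 : (L.d v u : ℝ) = L.d u v := by rw [c1]
  have r2 : (L.d v' u' : ℝ) = L.d u' v' := by rw [c2]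
  rcases hcases with ⟨a, b⟩ | ⟨a, b⟩ | ⟨a, b⟩ | ⟨a, b⟩ | ⟨a, b⟩ | ⟨a, b⟩
  · have e : L.d u v = L.d u' v' := by omega
    rw [← L.edgePt_congr u v u' v' h h' t' a b]
    exact L.joined_edgePt u v h t t' h0 h1 h0' (by rw [e]; exact h1')
  · have e : L.d u v = L.d u' v' := by omega
    rw [L.edgePt_swap u' v' h' hs' t' h0' h1', ← L.edgePt_congr u v v' u' h hs' _ a b]
    exact L.joined_edgePt u v h t _ h0 h1 (by linarith) (by rw [e]; linarith)
  · exact L.joined_away u v u' v' h h' t t' h0 h1 h0' h1' a b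
  · rw [L.edgePt_swap u' v' h' hs' t' h0' h1']
    exact L.joined_away u v v' u' h hs' t _ h0 h1 (by linarith) (by linarith) a b
  · rw [L.edgePt_swap u v h hs t h0 h1]
    exact L.joined_away v u u' v' hs h' _ t' (by linarith) (by linarith) h0' h1' a b
  · rw [L.edgePt_swap u v h hs t h0 h1, L.edgePt_swap u' v' h' hs' t' h0' h1']
    exact L.joined_away v u v' u' hs hs' _ _ (by linarith) (by linarith) (by linarith)
      (by linarith) a b

theorem exists_vtx_near (f : L.Pt) : ∃ u, dist f (L.vtx u) ≤ 1 := by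
  obtain ⟨u, v, h, t, h0, h1, rfl⟩ := L.exists_edgePt f
  refine ⟨u, ?_⟩
  rw [L.dist_edgePt_left u v h t h0 h1]
  have : (L.d u v : ℝ) ≤ 1 := by exact_mod_cast h
  linarith

theorem isHyperbolic : IsHyperbolic L.Pt 4 := by
  refine ⟨fun x y => L.joined_all x y, fun x y z w => ?_⟩
  obtain ⟨a, ha⟩ := L.exists_vtx_near x
  obtain ⟨b, hb⟩ := L.exists_vtx_near y
  obtain ⟨c, hc⟩ := L.exists_vtx_near z
  obtain ⟨e, he⟩ := L.exists_vtx_near w
  have up : ∀ (p q : L.Pt) (u v : G), dist p (L.vtx u) ≤ 1 → dist q (L.vtx v) ≤ 1 →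
      dist p q ≤ L.d u v + 2 ∧ (L.d u v : ℝ) ≤ dist p q + 2 := by
    intro p q u v h1 h2
    have a1 := dist_triangle4 p (L.vtx u) (L.vtx v) q
    have a2 := dist_triangle4 (L.vtx u) p q (L.vtx v)
    rw [dist_vtx] at a1 a2
    rw [dist_comm (L.vtx v) q] at a1
    rw [dist_comm (L.vtx u) p] at a2
    constructor <;> linarith
  have h4 : (L.d a b : ℝ) + L.d c e ≤ max ((L.d a c : ℝ) + L.d b e) ((L.d a e : ℝ) + L.d b c) := by
    exact_mod_cast L.d_four a b c e
  have q1 := (up x y a b ha hb).1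
  have q2 := (up z w c e hc he).1
  have q3 := (up x z a c ha hc).2
  have q4 := (up y w b e hb he).2
  have q5 := (up x w a e ha he).2
  have q6 := (up y z b c hb hc).2
  rcases le_max_iff.mp h4 with h | h
  · have := le_max_left (dist x z + dist y w) (dist x w + dist y z)
    linarith
  · have := le_max_right (dist x z + dist y w) (dist x w + dist y z)
    linarith

/-- left translation on the realisation -/
def shift (g : G) (f : L.Pt) : L.Pt :=
  ⟨fun w => f.1 (g⁻¹ * w), by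
    obtain ⟨u, v, t, h, h0, h1, hf⟩ := f.2
    refine ⟨g * u, g * v, t, by rwa [d_mul], h0, by rwa [d_mul], ?_⟩
    funext w
    rw [hf]
    simp only [edgeFun, d_mul]
    rw [← L.d_mul g u (g⁻¹ * w), ← L.d_mul g v (g⁻¹ * w)]
    simp⟩

theorem shift_mul (g h : G) (f : L.Pt) : L.shift (g * h) f = L.shift g (L.shift h f) := by
  apply Subtype.ext
  funext w
  simp [shift, mul_assoc]

theorem shift_one (f : L.Pt) : L.shift 1 f = f := by
  apply Subtype.ext
  funext w
  simp [shift]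

theorem dist_shift_le (g : G) (f f' : L.Pt) : dist (L.shift g f) (L.shift g f') ≤ dist f f' :=
  L.dist_le _ _ _ fun w => L.le_dist f f' (g⁻¹ * w)

/-- left translation as an isometry -/
def shiftIso (g : G) : L.Pt ≃ᵢ L.Pt where
  toFun := L.shift g
  invFun := L.shift g⁻¹
  left_inv f := by rw [← shift_mul]; simp [shift_one]
  right_inv f := by rw [← shift_mul]; simp [shift_one]
  isometry_toFun := by
    refine Isometry.of_dist_eq fun f f' => le_antisymm (L.dist_shift_le g f f') ?_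
    have := L.dist_shift_le g⁻¹ (L.shift g f) (L.shift g f')
    rwa [← shift_mul, ← shift_mul, inv_mul_cancel, shift_one, shift_one] at this

theorem shiftIso_apply (g : G) (f : L.Pt) : L.shiftIso g f = L.shift g f := rfl

theorem shift_vtx (g u : G) : L.shift g (L.vtx u) = L.vtx (g * u) := by
  apply Subtype.ext
  funext w
  change (L.vtx u).1 (g⁻¹ * w) = _
  rw [vtx_val, vtx_val, ← L.d_mul g u]
  simp

/-- the zero length function, whose realisation is a point -/
def zero (G : Type) [Group G] : TreeLen G where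
  len _ := 0
  len_one := rfl
  len_inv _ := rfl
  len_mul _ _ := le_rfl
  step _ n h := by omega
  parity _ _ := rfl
  four _ _ _ := by simp

theorem zero_eq (f f' : (zero G).Pt) : f = f' := by
  obtain ⟨u, v, h, t, h0, h1, rfl⟩ := (zero G).exists_edgePt f
  obtain ⟨u', v', h', t', h0', h1', rfl⟩ := (zero G).exists_edgePt f'
  have e : t = 0 := le_antisymm (by simpa [d, zero] using h1) h0
  have e' : t' = 0 := le_antisymm (by simpa [d, zero] using h1') h0'
  rw [e, e']
  exact (zero G).edgePt_congr _ _ _ _ _ _ _ rfl rfl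

end TreeLen

end Pool.Agent.Lib.MP_7eef47_al
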