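import Mathlib
import Pool.Agent.Lib.MP_7eef47_al.Tree

set_option autoImplicit false

namespace Pool.Agent.Lib.MP_7eef47_al

/-- A group acting geometrically and vertex-transitively on a product of two trees. -/
structure ProdData (G : Type) [Group G] (S : Set G) where
  L1 : TreeLen G
  L2 : TreeLen G
  gen_le : ∀ s ∈ S, L1.len s + L2.len s ≤ 1
  step1 : ∀ g n, L1.len g = n + 1 → ∃ s ∈ S, L2.len s = 0 ∧ L1.len (s⁻¹ * g) = n
  step2 : ∀ g n, L2.len g = n + 1 → ∃ s ∈ S, L1.len s = 0 ∧ L2.len (s⁻¹ * g) = n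
  base : ∀ g, L1.len g = 0 → L2.len g = 0 → g ∈ S

namespace TreeLen
variable {G : Type} [Group G] (L : TreeLen G)

theorem len_mul_zero_left (s g : G) (hs : L.len s = 0) : L.len (s⁻¹ * g) = L.len g := by
  have a := L.len_mul s⁻¹ g
  have b := L.len_mul s (s⁻¹ * g)
  rw [L.len_inv] at a
  rw [mul_inv_cancel_left] at b
  omega

theorem d_congr (u u' v v' : G) (hu : L.d u u' = 0) (hv : L.d v v' = 0) : L.d u v = L.d u' v' := by
  have a1 := L.d_tri u u' v
  have a2 := L.d_tri u' v' v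
  have a3 := L.d_tri u' u v'
  have a4 := L.d_tri u v v'
  have c1 := L.d_comm u u'
  have c2 := L.d_comm v v'
  omega

theorem len_pow_zero (a : G) (ha : L.len a = 0) (n : ℕ) : L.len (a ^ n) = 0 := by
  induction n with
  | zero => simpa using L.len_one
  | succ n ih =>
    have := L.len_mul (a ^ n) a
    rw [← pow_succ] at this
    omega

theorem d_pow (a : G) (ha : ∀ n, L.len (a ^ n) = n) (s t : ℕ) :
    (L.d (a ^ s) (a ^ t) : ℤ) = |(s : ℤ) - t| := by
  have key : ∀ s t : ℕ, s ≤ t → L.d (a ^ s) (a ^ t) = t - s := by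
    intro s t hst
    obtain ⟨k, rfl⟩ := Nat.exists_eq_add_of_le hst
    simp [d, pow_add, ha]
  rcases le_total s t with h | h
  · rw [key s t h, abs_sub_comm, abs_of_nonneg (by omega)]; omega
  · rw [d_comm, key t s h, abs_of_nonneg (by omega)]; omega

end TreeLen

namespace ProdData

variable {G : Type} [Group G] {S : Set G} (P : ProdData G S)

theorem exists_walk_aux (n : ℕ) : ∀ x y : G, P.L1.d x y + P.L2.d x y = n →
    ∃ p : (SimpleGraph.mulCayley S).Walk x y, p.length ≤ n + 1 := by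
  have adj : ∀ x s : G, s ∈ S → x = x * s ∨ (SimpleGraph.mulCayley S).Adj x (x * s) := by
    intro x s hs
    by_cases h : x = x * s
    · exact Or.inl h
    · right
      rw [SimpleGraph.mulCayley_adj]
      exact ⟨h, Or.inl (by simpa using hs)⟩
  have cons : ∀ (x s y : G) (k : ℕ), s ∈ S →
      (∃ p : (SimpleGraph.mulCayley S).Walk (x * s) y, p.length ≤ k) →
      ∃ p : (SimpleGraph.mulCayley S).Walk x y, p.length ≤ k + 1 := by
    rintro x s y k hs ⟨p, hp⟩
    rcases adj x s hs with h | h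
    · exact ⟨p.copy h.symm rfl, by simp; omega⟩
    · exact ⟨SimpleGraph.Walk.cons h p, by simp; omega⟩
  induction n with
  | zero =>
    intro x y h
    have hs : x⁻¹ * y ∈ S := P.base _ (by unfold TreeLen.d at h; omega) (by unfold TreeLen.d at h; omega)
    exact cons x (x⁻¹ * y) y 0 hs ⟨SimpleGraph.Walk.nil.copy (by simp) rfl, by simp⟩
  | succ n ih =>
    intro x y h
    unfold TreeLen.d at h
    rcases Nat.eq_zero_or_pos (P.L1.len (x⁻¹ * y)) with h1 | h1
    · obtain ⟨s, hs, hs1, hs2⟩ := P.step2 (x⁻¹ * y) n (by omega)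
      refine cons x s y (n + 1) hs (ih _ _ ?_)
      have := P.L1.len_mul_zero_left s (x⁻¹ * y) hs1
      simp only [TreeLen.d, mul_inv_rev, mul_assoc]
      omega
    · obtain ⟨s, hs, hs1, hs2⟩ := P.step1 (x⁻¹ * y) (P.L1.len (x⁻¹ * y) - 1) (by omega)
      refine cons x s y (n + 1) hs (ih _ _ ?_)
      have := P.L2.len_mul_zero_left s (x⁻¹ * y) hs1
      simp only [TreeLen.d, mul_inv_rev, mul_assoc]
      omega

theorem dist_le (x y : G) :
    (SimpleGraph.mulCayley S).dist x y ≤ P.L1.d x y + P.L2.d x y + 1 := by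
  obtain ⟨p, hp⟩ := P.exists_walk_aux _ x y rfl
  exact (SimpleGraph.dist_le p).trans hp

theorem le_length {x y : G} (p : (SimpleGraph.mulCayley S).Walk x y) :
    P.L1.d x y + P.L2.d x y ≤ p.length := by
  induction p with
  | nil => simp [TreeLen.d_self]
  | @cons u v w h p ih =>
    rw [SimpleGraph.mulCayley_adj] at h
    have a := P.L1.d_tri u v w
    have b := P.L2.d_tri u v w
    have c : P.L1.d u v + P.L2.d u v ≤ 1 := by
      rcases h.2 with h | h
      · exact P.gen_le _ h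
      · rw [P.L1.d_comm, P.L2.d_comm]; exact P.gen_le _ h
    simp only [SimpleGraph.Walk.length_cons]
    omega

theorem le_dist (x y : G) : P.L1.d x y + P.L2.d x y ≤ (SimpleGraph.mulCayley S).dist x y := by
  obtain ⟨p, -⟩ := P.exists_walk_aux _ x y rfl
  obtain ⟨q, hq⟩ := p.reachable.exists_walk_length_eq_dist
  rw [← hq]
  exact P.le_length q

theorem wordDist_le (x y : G) : wordDist S x y ≤ (P.L1.d x y : ℝ) + P.L2.d x y + 1 := by
  unfold wordDist
  exact_mod_cast P.dist_le x y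

theorem le_wordDist (x y : G) : (P.L1.d x y : ℝ) + P.L2.d x y ≤ wordDist S x y := by
  unfold wordDist
  exact_mod_cast P.le_dist x y

include P in
theorem closure_eq_top : Subgroup.closure S = ⊤ := by
  rw [eq_top_iff]
  intro g _
  have key : ∀ {x y : G} (_ : (SimpleGraph.mulCayley S).Walk x y), x⁻¹ * y ∈ Subgroup.closure S := by
    intro x y p
    induction p with
    | nil => simp
    | @cons u v w h p ih =>
      rw [SimpleGraph.mulCayley_adj] at h
      have : u⁻¹ * v ∈ Subgroup.closure S := by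
        rcases h.2 with h | h
        · exact Subgroup.subset_closure h
        · have := Subgroup.inv_mem _ (Subgroup.subset_closure h)
          simpa using this
      have := Subgroup.mul_mem _ this ih
      simpa [mul_assoc] using this
  obtain ⟨p, -⟩ := P.exists_walk_aux _ 1 g rfl
  simpa using key p

theorem realize (u v : G) : ∃ x, P.L1.d x u = 0 ∧ P.L2.d x v = 0 := by
  induction h : P.L1.d v u generalizing v with
  | zero => exact ⟨v, h, P.L2.d_self v⟩
  | succ n ih =>
    obtain ⟨s, -, hs1, hs2⟩ := P.step1 _ n h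
    obtain ⟨x, hx1, hx2⟩ := ih (v * s) (by simpa [TreeLen.d, mul_assoc] using hs2)
    refine ⟨x, hx1, ?_⟩
    have a := P.L2.d_tri x (v * s) v
    have b : P.L2.d (v * s) v = 0 := by
      rw [TreeLen.d_comm]; simpa [TreeLen.d] using hs1
    omega

end ProdData

/-- the three domains -/
inductive Dom : Type
  | top : Dom
  | a : Dom
  | b : Dom
  deriving DecidableEq

instance instPartialOrderDom : PartialOrder Dom where
  le x y := x = y ∨ y = Dom.top
  le_refl x := Or.inl rfl
  le_trans x y z h1 h2 := by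
    rcases h1 with rfl | rfl
    · exact h2
    · rcases h2 with rfl | rfl <;> exact Or.inr rfl
  le_antisymm x y h1 h2 := by
    rcases h1 with rfl | rfl
    · rfl
    · rcases h2 with h | h
      · exact h.symm
      · exact h

theorem Dom.le_iff (x y : Dom) : x ≤ y ↔ x = y ∨ y = Dom.top := Iff.rfl

theorem Dom.lt_iff (x y : Dom) : x < y ↔ x ≠ Dom.top ∧ y = Dom.top := by
  rw [lt_iff_le_and_ne, Dom.le_iff]
  cases x <;> cases y <;> simp

/-- orthogonality of the two proper domains -/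
def Dom.orth (x y : Dom) : Prop := x ≠ y ∧ x ≠ Dom.top ∧ y ≠ Dom.top

theorem Dom.not_transverse (x y : Dom) : ¬ (¬ Dom.orth x y ∧ ¬ x ≤ y ∧ ¬ y ≤ x) := by
  unfold Dom.orth
  simp only [Dom.le_iff]
  cases x <;> cases y <;> simp

theorem Dom.card_le (F : Finset Dom) : F.card ≤ 3 := by
  have : F ⊆ {Dom.top, Dom.a, Dom.b} := by
    intro x _
    cases x <;> simp
  exact (Finset.card_le_card this).trans Finset.card_le_three

/-- the trivial action on the domains -/
@[reducible] def Dom.action (G : Type) [Group G] : MulAction G Dom where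
  smul _ U := U
  one_smul _ := rfl
  mul_smul _ _ _ := rfl

namespace ProdData

variable {G : Type} [Group G] {S : Set G} (P : ProdData G S)

/-- the length function attached to a domain -/
def lenOf : Dom → TreeLen G
  | Dom.top => TreeLen.zero G
  | Dom.a => P.L1
  | Dom.b => P.L2

theorem dist_top (p q : (P.lenOf Dom.top).Pt) : dist p q = 0 := by
  rw [TreeLen.zero_eq p q, dist_self]

theorem lenOf_le (U : Dom) (x y : G) : ((P.lenOf U).d x y : ℝ) ≤ wordDist S x y := by
  have h := P.le_wordDist x y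
  have h1 : (0 : ℝ) ≤ P.L1.d x y := Nat.cast_nonneg _
  have h2 : (0 : ℝ) ≤ P.L2.d x y := Nat.cast_nonneg _
  cases U
  · simp only [lenOf, TreeLen.d, TreeLen.zero, Nat.cast_zero]; linarith
  · simp only [lenOf]; linarith
  · simp only [lenOf]; linarith

/-- isometries between the spaces of equal domains -/
def isoOf (g : G) (U V : Dom) (h : U = V) : (P.lenOf U).Pt ≃ᵢ (P.lenOf V).Pt := by
  subst h
  exact (P.lenOf U).shiftIso g

theorem isoOf_rfl (g : G) (U : Dom) : P.isoOf g U U rfl = (P.lenOf U).shiftIso g := rfl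

/-- The hierarchically hyperbolic group structure. -/
@[reducible] noncomputable def hdata : HData G :=
  letI := Dom.action G
  { I := Dom
    C := fun U => (P.lenOf U).Pt
    orth := Dom.orth
    proj := fun U x => (P.lenOf U).vtx x
    rho := fun _ W => (P.lenOf W).vtx 1
    down := fun _ V _ => (P.lenOf V).vtx 1
    iso := fun g U V h => P.isoOf g U V h }

theorem projections : P.hdata.Projections S 4 := by
  refine ⟨fun U => (P.lenOf U).isHyperbolic, ?_, ?_⟩
  · intro U x y
    change dist ((P.lenOf U).vtx x) ((P.lenOf U).vtx y) ≤ _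
    rw [TreeLen.dist_vtx]
    have h := P.lenOf_le U x y
    have h0 : (0 : ℝ) ≤ (P.lenOf U).d x y := Nat.cast_nonneg _
    linarith
  · intro U p
    obtain ⟨u, hu⟩ := (P.lenOf U).exists_vtx_near p
    exact ⟨u, by rw [dist_comm]; exact hu.trans (by norm_num)⟩

theorem relations : P.hdata.Relations 4 := by
  refine ⟨⟨Dom.top, fun U => Or.inr rfl⟩, fun V W h => ⟨h.1.symm, h.2.2, h.2.1⟩, ?_, ?_, ?_, ?_⟩
  · intro V W h hle
    rcases hle with h' | h'
    · exact h.1 h'
    · exact h.2.2 h'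
  · intro U V W hle h
    rcases hle with h' | h'
    · rwa [h']
    · exact absurd h' h.2.1
  · rintro T U hUT ⟨V, hVT, hVU⟩
    refine ⟨V, ?_, ?_⟩
    · refine (Dom.lt_iff V T).mpr ⟨hVU.2.1, ?_⟩
      rcases hUT with h | h
      · rcases hVT with h' | h'
        · exact absurd (h'.trans h.symm) hVU.1
        · exact h'
      · exact h
    · intro V' _ hV'
      left
      change Dom.orth V U at hVU
      change Dom.orth V' U at hV'
      revert hVU hV'
      unfold Dom.orth
      cases U <;> cases V <;> cases V' <;> simp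
  · intro F _
    have : (F.card : ℝ) ≤ 3 := by exact_mod_cast Dom.card_le F
    linarith

theorem consistency : P.hdata.Consistency 4 := by
  refine ⟨fun V W h => absurd h (Dom.not_transverse V W), ?_, ?_⟩
  · intro V W h x
    obtain ⟨-, rfl⟩ := (Dom.lt_iff V W).mp h
    refine min_le_of_left_le ?_
    exact (P.dist_top _ _).le.trans (by norm_num)
  · intro U V W _ _
    exact (dist_self _).le.trans (by norm_num)

theorem largeLinks : P.hdata.LargeLinks 4 := by
  intro W x y
  have h0 : 0 ≤ dist (P.hdata.proj W x) (P.hdata.proj W y) := dist_nonneg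
  refine ⟨({Dom.top, Dom.a, Dom.b} : Finset Dom).filter (· ≠ Dom.top ∧ W = Dom.top), ?_, ?_, ?_⟩
  · have : ((({Dom.top, Dom.a, Dom.b} : Finset Dom).filter
        (· ≠ Dom.top ∧ W = Dom.top)).card : ℝ) ≤ 3 := by exact_mod_cast Dom.card_le _
    linarith
  · intro T hT
    have hT' := (Finset.mem_filter.mp hT).2
    refine ⟨(Dom.lt_iff T W).mpr hT', ?_⟩
    obtain ⟨-, rfl⟩ := hT'
    refine (P.dist_top _ _).le.trans ?_
    linarith
  · intro V hV
    left
    refine ⟨V, Finset.mem_filter.mpr ⟨?_, (Dom.lt_iff V W).mp hV⟩, le_rfl⟩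
    cases V <;> simp

theorem boundedGeodesicImage : P.hdata.BoundedGeodesicImage 4 := by
  intro V W h γ a b hγ
  left
  intro s _ t _
  exact (dist_self _).le.trans (by norm_num)

theorem realization : P.hdata.Realization 4 := by
  intro F _ p
  obtain ⟨u, hu⟩ := P.L1.exists_vtx_near (p Dom.a)
  obtain ⟨v, hv⟩ := P.L2.exists_vtx_near (p Dom.b)
  obtain ⟨x, hx1, hx2⟩ := P.realize u v
  refine ⟨x, fun V _ => ⟨?_, ?_⟩⟩
  · cases V
    · exact (P.dist_top _ _).le.trans (by norm_num)
    · have a1 := dist_triangle (P.L1.vtx x) (P.L1.vtx u) (p Dom.a)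
      rw [TreeLen.dist_vtx, hx1, dist_comm (P.L1.vtx u)] at a1
      change dist (P.L1.vtx x) (p Dom.a) ≤ 4
      simp only [Nat.cast_zero] at a1
      linarith
    · have a1 := dist_triangle (P.L2.vtx x) (P.L2.vtx v) (p Dom.b)
      rw [TreeLen.dist_vtx, hx2, dist_comm (P.L2.vtx v)] at a1
      change dist (P.L2.vtx x) (p Dom.b) ≤ 4
      simp only [Nat.cast_zero] at a1
      linarith
  · intro W hW
    rcases hW with hW | hW
    · obtain ⟨-, rfl⟩ := (Dom.lt_iff V W).mp hW
      exact (P.dist_top _ _).le.trans (by norm_num)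
    · exact absurd hW (Dom.not_transverse V W)

theorem uniqueness : P.hdata.Uniqueness S := by
  intro r
  refine ⟨2 * r + 1, fun x y h => ?_⟩
  have h1 := P.wordDist_le x y
  by_cases h2 : r ≤ P.L1.d x y
  · refine ⟨Dom.a, ?_⟩
    change r ≤ dist (P.L1.vtx x) (P.L1.vtx y)
    rw [TreeLen.dist_vtx]; exact h2
  · refine ⟨Dom.b, ?_⟩
    change r ≤ dist (P.L2.vtx x) (P.L2.vtx y)
    rw [TreeLen.dist_vtx]
    push Not at h2
    linarith

theorem action : P.hdata.Action := by
  refine ⟨⟨({Dom.top, Dom.a, Dom.b} : Finset Dom), fun U => ⟨1, ?_⟩⟩, fun _ _ _ h => h,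
    fun _ _ _ h => h, ?_⟩
  · change U ∈ ({Dom.top, Dom.a, Dom.b} : Finset Dom)
    cases U <;> simp
  · intro g h U V W hUV hVW hUW p
    have e1 : U = V := hUV
    have e2 : V = W := hVW
    subst e1
    subst e2
    exact (P.lenOf U).shift_mul g h p

theorem equivariance : P.hdata.Equivariance 4 := by
  refine ⟨?_, ?_, ?_⟩
  · intro g U U' h x
    have e : U = U' := h
    subst e
    exact (P.lenOf U).shift_vtx g x
  · intro g V W W' h' h
    have e : W = W' := h'
    subst e
    rcases h with h | h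
    · obtain ⟨-, rfl⟩ := (Dom.lt_iff V W).mp h
      exact TreeLen.zero_eq _ _
    · exact absurd h (Dom.not_transverse V W)
  · intro g V V' W W' hV hW h p hp
    obtain ⟨-, rfl⟩ := (Dom.lt_iff V W).mp h
    have := hp.trans_le (P.dist_top _ _).le
    norm_num at this

include P in
theorem isHHG : IsHHG S :=
  ⟨P.hdata, 4, by norm_num, P.projections, P.relations, P.consistency, P.largeLinks,
    P.boundedGeodesicImage, P.realization, P.uniqueness, P.action, P.equivariance⟩

theorem not_sqc (H : Subgroup G) (hH : ∀ h ∈ H, P.L1.len h = 0)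
    (hbase : ∀ g, P.L1.len g = 0 → P.L2.len g = 0 → g ∈ H)
    (a : G) (ha : a ∈ H) (ha2 : ∀ n, P.L2.len (a ^ n) = n)
    (b : G) (hb1 : ∀ n, P.L1.len (b ^ n) = n) : ¬ StronglyQuasiconvex S H := by
  intro hq
  obtain ⟨M, hM⟩ := hq 3 2 (by norm_num) (by norm_num)
  obtain ⟨n, hn⟩ := exists_nat_gt M
  choose x hx1 hx2 using fun s t : ℕ => P.realize (b ^ s) (a ^ t)
  let σ : ℕ → ℕ := fun m => min (min m n) (3 * n - m)
  let τ : ℕ → ℕ := fun m => min (m - n) n
  let γ : ℝ → G := fun r => x (σ ⌊r⌋₊) (τ ⌊r⌋₊)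
  have d1 : ∀ s t s' t', (P.L1.d (x s t) (x s' t') : ℤ) = |(s : ℤ) - s'| := by
    intro s t s' t'
    rw [P.L1.d_congr _ _ _ _ (hx1 s t) (hx1 s' t'), P.L1.d_pow b hb1]
  have d2 : ∀ s t s' t', (P.L2.d (x s t) (x s' t') : ℤ) = |(t : ℤ) - t'| := by
    intro s t s' t'
    rw [P.L2.d_congr _ _ _ _ (hx2 s t) (hx2 s' t'), P.L2.d_pow a ha2]
  have memH : ∀ t, x 0 t ∈ H := by
    intro t
    have h1 := hx1 0 t
    have h2 := hx2 0 t
    have h3 := hH _ (H.pow_mem ha t)
    have h4 : P.L1.len ((x 0 t)⁻¹ * a ^ t) = 0 := by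
      have := P.L1.len_mul (x 0 t)⁻¹ (a ^ t)
      simp only [TreeLen.d, pow_zero, mul_one] at h1
      omega
    have h5 := hbase _ h4 h2
    have := H.mul_mem (H.pow_mem ha t) (H.inv_mem h5)
    simpa using this
  have hqg : IsQuasiGeodesic S 3 2 γ 0 (3 * n) := by
    refine ⟨by positivity, fun s hs t ht => ?_⟩
    have hs' : ⌊s⌋₊ ≤ 3 * n := Nat.floor_le_of_le (by exact_mod_cast hs.2)
    have ht' : ⌊t⌋₊ ≤ 3 * n := Nat.floor_le_of_le (by exact_mod_cast ht.2)
    have f1 := Nat.floor_le hs.1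
    have f2 := Nat.lt_floor_add_one s
    have f3 := Nat.floor_le ht.1
    have f4 := Nat.lt_floor_add_one t
    have w1 := P.wordDist_le (γ s) (γ t)
    have w2 := P.le_wordDist (γ s) (γ t)
    have e1 := d1 (σ ⌊s⌋₊) (τ ⌊s⌋₊) (σ ⌊t⌋₊) (τ ⌊t⌋₊)
    have e2 := d2 (σ ⌊s⌋₊) (τ ⌊s⌋₊) (σ ⌊t⌋₊) (τ ⌊t⌋₊)
    change (P.L1.d (γ s) (γ t) : ℤ) = _ at e1
    change (P.L2.d (γ s) (γ t) : ℤ) = _ at e2
    generalize P.L1.d (γ s) (γ t) = D1 at *
    generalize P.L2.d (γ s) (γ t) = D2 at *
    generalize ⌊s⌋₊ = m at *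
    generalize ⌊t⌋₊ = m' at *
    have k : (D1 + D2 + m' ≤ m ∧ m ≤ 3 * (D1 + D2) + m') ∨
        (D1 + D2 + m ≤ m' ∧ m' ≤ 3 * (D1 + D2) + m) := by
      simp only [σ, τ] at e1 e2
      rcases abs_cases (((min (min m n) (3 * n - m) : ℕ) : ℤ) - (min (min m' n) (3 * n - m') : ℕ))
        with ⟨c1, c2⟩ | ⟨c1, c2⟩ <;>
      rcases abs_cases (((min (m - n) n : ℕ) : ℤ) - (min (m' - n) n : ℕ))
        with ⟨c3, c4⟩ | ⟨c3, c4⟩ <;>
      rw [c1] at e1 <;> rw [c3] at e2 <;> omega
    rcases k with ⟨k1, k2⟩ | ⟨k1, k2⟩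
    · have k1' : (D1 : ℝ) + D2 + m' ≤ m := by exact_mod_cast k1
      have k2' : (m : ℝ) ≤ 3 * (D1 + D2) + m' := by exact_mod_cast k2
      have h0 : (0 : ℝ) ≤ D1 + D2 := by positivity
      rcases abs_cases (s - t) with ⟨c1, c2⟩ | ⟨c1, c2⟩ <;> rw [c1] <;> constructor <;> linarith
    · have k1' : (D1 : ℝ) + D2 + m ≤ m' := by exact_mod_cast k1
      have k2' : (m' : ℝ) ≤ 3 * (D1 + D2) + m := by exact_mod_cast k2
      have h0 : (0 : ℝ) ≤ D1 + D2 := by positivity
      rcases abs_cases (s - t) with ⟨c1, c2⟩ | ⟨c1, c2⟩ <;> rw [c1] <;> constructor <;> linarith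
  have g0 : γ 0 ∈ H := by
    have : γ 0 = x 0 0 := by simp [γ, σ, τ]
    rw [this]; exact memH 0
  have g1 : γ (3 * n) ∈ H := by
    have e : ⌊(3 * n : ℝ)⌋₊ = 3 * n := by exact_mod_cast Nat.floor_natCast (R := ℝ) (3 * n)
    have : γ (3 * n) = x 0 (τ (3 * n)) := by simp [γ, σ, e]
    rw [this]; exact memH _
  obtain ⟨h, hh, hd⟩ := hM γ 0 (3 * n) hqg g0 g1 n
    ⟨Nat.cast_nonneg _, by have : (0 : ℝ) ≤ n := Nat.cast_nonneg _; linarith⟩
  have e : γ n = x n 0 := by
    have : σ n = n := by simp only [σ]; omega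
    simp [γ, this, τ]
  rw [e] at hd
  have w := P.le_wordDist (x n 0) h
  have z : P.L1.d h (b ^ 0) = 0 := by
    rw [TreeLen.d_comm]; simpa [TreeLen.d] using hH h hh
  have z2 := P.L1.d_congr _ _ _ _ (hx1 n 0) z
  have z3 := P.L1.d_pow b hb1 n 0
  have z4 : P.L1.d (x n 0) h = n := by
    rw [z2]
    simp only [Nat.cast_zero, sub_zero, Nat.abs_cast] at z3
    exact_mod_cast z3
  rw [z4] at w
  have : (0 : ℝ) ≤ P.L2.d (x n 0) h := Nat.cast_nonneg _
  linarith

end ProdData

end Pool.Agent.Lib.MP_7eef47_al
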