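import Mathlib
import Pool.Agent.Lib.MP_7eef47_al.Product

set_option autoImplicit false

namespace Pool.Agent.Lib.MP_7eef47_al

open Quaternion

/-- integral quaternions -/
abbrev Qt : Type := Quaternion ℤ

/-- integral quaternions whose norm only involves the primes 3 and 5 -/
def Mon : Submonoid Qt where
  carrier := {x | ∃ a b : ℕ, normSq x = 3 ^ a * 5 ^ b}
  one_mem' := ⟨0, 0, by simp⟩
  mul_mem' := by
    rintro x y ⟨a, b, h⟩ ⟨c, d, h'⟩
    exact ⟨a + c, b + d, by rw [map_mul, h, h']; ring⟩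

theorem mem_Mon (x : Qt) : x ∈ Mon ↔ ∃ a b : ℕ, normSq x = 3 ^ a * 5 ^ b := Iff.rfl

theorem Mon_norm_pos (x : Mon) : 0 < normSq x.1 := by
  obtain ⟨a, b, h⟩ := x.2
  rw [h]; positivity

theorem Mon_ne_zero (x : Mon) : x.1 ≠ 0 := by
  have := Mon_norm_pos x
  intro h
  rw [h] at this
  simp at this

theorem star_mem {x : Qt} (h : x ∈ Mon) : star x ∈ Mon := by
  obtain ⟨a, b, h⟩ := h
  exact ⟨a, b, by rw [normSq_star, h]⟩

theorem mem_of_smul {x y : Qt} (m : ℤ) (h : x ∈ Mon) (e : x = m • y) : y ∈ Mon := by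
  obtain ⟨a, b, h⟩ := h
  rw [e, normSq_smul] at h
  have h0 : 0 ≤ normSq y := normSq_nonneg
  obtain ⟨k, hk⟩ := Int.eq_ofNat_of_zero_le h0
  have hd : k ∣ 3 ^ a * 5 ^ b := by
    have : (k : ℤ) ∣ 3 ^ a * 5 ^ b := ⟨m ^ 2, by rw [← h, hk]; ring⟩
    exact_mod_cast this
  obtain ⟨k1, k2, h1, h2, rfl⟩ := Nat.dvd_mul.mp hd
  obtain ⟨i, -, rfl⟩ := (Nat.dvd_prime_pow Nat.prime_three).mp h1
  obtain ⟨j, -, rfl⟩ := (Nat.dvd_prime_pow Nat.prime_five).mp h2
  exact ⟨i, j, by rw [hk]; push_cast; ring⟩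

theorem smul_cancel {m : ℤ} (hm : m ≠ 0) {x y : Qt} (h : m • x = m • y) : x = y :=
  smul_right_injective Qt hm h

/-- proportionality -/
def propCon : Con Mon where
  r x y := ∃ m n : ℤ, m ≠ 0 ∧ n ≠ 0 ∧ m • x.1 = n • y.1
  iseqv := by
    refine ⟨fun x => ⟨1, 1, one_ne_zero, one_ne_zero, rfl⟩, ?_, ?_⟩
    · rintro x y ⟨m, n, hm, hn, h⟩
      exact ⟨n, m, hn, hm, h.symm⟩
    · rintro x y z ⟨m, n, hm, hn, h⟩ ⟨m', n', hm', hn', h'⟩
      refine ⟨m' * m, n * n', mul_ne_zero hm' hm, mul_ne_zero hn hn', ?_⟩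
      rw [mul_smul, h, smul_comm, h', mul_smul]
  mul' := by
    rintro x y z w ⟨m, n, hm, hn, h⟩ ⟨m', n', hm', hn', h'⟩
    refine ⟨m * m', n * n', mul_ne_zero hm hm', mul_ne_zero hn hn', ?_⟩
    simp only [Submonoid.coe_mul]
    rw [← smul_mul_smul_comm, h, h', smul_mul_smul_comm]

/-- the lattice -/
def Gam : Type := propCon.Quotient

/-- conjugate of an element of the monoid -/
def starM (x : Mon) : Mon := ⟨star x.1, star_mem x.2⟩

theorem coe_int_eq_smul (m : ℤ) : ((m : ℤ) : Qt) = m • (1 : Qt) := by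
  ext <;> simp

noncomputable instance instGroupGam : Group Gam :=
  @groupOfIsUnit Gam (inferInstanceAs (Monoid propCon.Quotient)) (by
    intro g
    refine Con.induction_on (c := propCon) g fun x => ?_
    have hn := (Mon_norm_pos x).ne'
    have h1 : ((x * starM x : Mon) : propCon.Quotient) = ((1 : Mon) : propCon.Quotient) := by
      rw [Con.eq]
      refine ⟨1, normSq x.1, one_ne_zero, hn, ?_⟩
      simp only [Submonoid.coe_mul, starM, one_smul, self_mul_star, OneMemClass.coe_one]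
      ext <;> simp
    have h2 : ((starM x * x : Mon) : propCon.Quotient) = ((1 : Mon) : propCon.Quotient) := by
      rw [Con.eq]
      refine ⟨1, normSq x.1, one_ne_zero, hn, ?_⟩
      simp only [Submonoid.coe_mul, starM, one_smul, star_mul_self, OneMemClass.coe_one]
      ext <;> simp
    exact (⟨⟨(x : propCon.Quotient), (starM x : propCon.Quotient), h1, h2⟩, rfl⟩ :
      IsUnit (x : propCon.Quotient)))

/-- the quotient map -/
def mk (x : Mon) : Gam := (x : propCon.Quotient)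

theorem mk_mul (x y : Mon) : mk (x * y) = mk x * mk y := rfl

theorem mk_one : mk 1 = 1 := rfl

theorem mk_eq {x y : Mon} : mk x = mk y ↔ ∃ m n : ℤ, m ≠ 0 ∧ n ≠ 0 ∧ m • x.1 = n • y.1 :=
  Con.eq (c := propCon)

theorem mk_surj (g : Gam) : ∃ x, mk x = g := Con.induction_on (c := propCon) g fun x => ⟨x, rfl⟩

theorem mk_star (x : Mon) : mk (starM x) = (mk x)⁻¹ := by
  apply eq_inv_of_mul_eq_one_left
  rw [← mk_mul, ← mk_one, mk_eq]
  refine ⟨1, normSq x.1, one_ne_zero, (Mon_norm_pos x).ne', ?_⟩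
  simp only [Submonoid.coe_mul, starM, one_smul, star_mul_self, OneMemClass.coe_one]
  ext <;> simp

theorem mk_pow (x : Mon) (n : ℕ) : mk (x ^ n) = mk x ^ n := by
  induction n with
  | zero => simp [mk_one]
  | succ n ih => rw [pow_succ, pow_succ, mk_mul, ih]

theorem mk_eq_of_smul {x y : Mon} (m : ℤ) (h : x.1 = m • y.1) : mk x = mk y := by
  refine mk_eq.mpr ⟨1, m, one_ne_zero, ?_, by simpa using h⟩
  rintro rfl
  exact Mon_ne_zero x (by simpa using h)

/-- divisibility of a quaternion by an integer -/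
def Dv (m : ℤ) (x : Qt) : Prop := ∃ y : Qt, x = m • y

theorem dv_iff (m : ℤ) (x : Qt) : Dv m x ↔ m ∣ x.re ∧ m ∣ x.imI ∧ m ∣ x.imJ ∧ m ∣ x.imK := by
  constructor
  · rintro ⟨y, rfl⟩
    simp
  · rintro ⟨⟨a, ha⟩, ⟨b, hb⟩, ⟨c, hc⟩, ⟨d, hd⟩⟩
    exact ⟨⟨a, b, c, d⟩, by ext <;> simp [*]⟩

theorem Dv.mul_left {m : ℤ} {x : Qt} (h : Dv m x) (y : Qt) : Dv m (y * x) := by
  obtain ⟨z, rfl⟩ := h
  exact ⟨y * z, by rw [mul_smul_comm]⟩

theorem Dv.mul_right {m : ℤ} {x : Qt} (h : Dv m x) (y : Qt) : Dv m (x * y) := by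
  obtain ⟨z, rfl⟩ := h
  exact ⟨z * y, by rw [smul_mul_assoc]⟩

theorem Dv.add {m : ℤ} {x y : Qt} (h : Dv m x) (h' : Dv m y) : Dv m (x + y) := by
  obtain ⟨z, rfl⟩ := h
  obtain ⟨w, rfl⟩ := h'
  exact ⟨z + w, by simp⟩

theorem Dv.of_dvd {m n : ℤ} {x : Qt} (h : Dv n x) (hmn : m ∣ n) : Dv m x := by
  obtain ⟨z, rfl⟩ := h
  obtain ⟨k, rfl⟩ := hmn
  exact ⟨k • z, by rw [mul_smul]⟩

section prime

variable (p : ℕ) [hp : Fact p.Prime]

theorem prime_int : Prime (p : ℤ) := Nat.prime_iff_prime_int.mp hp.out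

theorem dv_of_smul {k : ℕ} {t : ℤ} (ht : ¬ (p : ℤ) ∣ t) {x : Qt} (h : Dv ((p : ℤ) ^ k) (t • x)) :
    Dv ((p : ℤ) ^ k) x := by
  have hc : IsCoprime ((p : ℤ) ^ k) t :=
    IsCoprime.pow_left ((prime_int p).irreducible.coprime_iff_not_dvd.mpr ht)
  rw [dv_iff] at h ⊢
  simp only [Quaternion.re_smul, Quaternion.imI_smul, Quaternion.imJ_smul, Quaternion.imK_smul,
    smul_eq_mul] at h
  exact ⟨hc.dvd_of_dvd_mul_left h.1, hc.dvd_of_dvd_mul_left h.2.1, hc.dvd_of_dvd_mul_left h.2.2.1,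
    hc.dvd_of_dvd_mul_left h.2.2.2⟩

theorem dvd_of_dv_smul {k : ℕ} {t : ℤ} {x : Qt} (hx : ¬ Dv p x) (h : Dv ((p : ℤ) ^ k) (t • x)) :
    (p : ℤ) ^ k ∣ t := by
  rw [dv_iff] at h hx
  simp only [Quaternion.re_smul, Quaternion.imI_smul, Quaternion.imJ_smul, Quaternion.imK_smul,
    smul_eq_mul] at h
  have key : ∀ c : ℤ, ¬ (p : ℤ) ∣ c → (p : ℤ) ^ k ∣ t * c → (p : ℤ) ^ k ∣ t := by
    intro c hc h
    have hc' : IsCoprime ((p : ℤ) ^ k) c :=
      IsCoprime.pow_left ((prime_int p).irreducible.coprime_iff_not_dvd.mpr hc)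
    exact hc'.dvd_of_dvd_mul_right h
  by_cases h1 : (p : ℤ) ∣ x.re
  · by_cases h2 : (p : ℤ) ∣ x.imI
    · by_cases h3 : (p : ℤ) ∣ x.imJ
      · exact key _ (fun h4 => hx ⟨h1, h2, h3, h4⟩) h.2.2.2
      · exact key _ h3 h.2.2.1
    · exact key _ h2 h.2.1
  · exact key _ h1 h.1

/-- the key annihilator lemma -/
theorem dv_four (hp2 : p ≠ 2) {k : ℕ} {x y z : Qt} (hy : ¬ Dv p y)
    (h1 : Dv ((p : ℤ) ^ k) (star x * y)) (h2 : Dv ((p : ℤ) ^ k) (star y * z)) :
    Dv ((p : ℤ) ^ k) (star x * z) := by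
  have two : ¬ (p : ℤ) ∣ 2 := by
    intro h
    have : p ∣ 2 := by exact_mod_cast h
    exact hp2 ((Nat.prime_dvd_prime_iff_eq hp.out Nat.prime_two).mp this)
  have key : ∀ w : Qt, ¬ (p : ℤ) ∣ (y * w).re → Dv ((p : ℤ) ^ k) (star x * z) := by
    intro w hw
    have ht : ¬ (p : ℤ) ∣ 2 * (y * w).re := fun h =>
      ((prime_int p).dvd_or_dvd h).elim two hw
    apply dv_of_smul p ht
    have e : y * w + star (y * w) = (2 * (y * w).re) • (1 : Qt) := by
      generalize y * w = u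
      ext <;> simp [two_mul]
    have e2 : (2 * (y * w).re) • (star x * z) =
        (star x * y) * (w * z) + (star x * star w) * (star y * z) := by
      calc (2 * (y * w).re) • (star x * z) = star x * ((2 * (y * w).re) • (1 : Qt)) * z := by
            rw [mul_smul_comm, smul_mul_assoc, mul_one]
        _ = star x * (y * w + star (y * w)) * z := by rw [e]
        _ = _ := by rw [star_mul]; noncomm_ring
    rw [e2]
    exact (h1.mul_right _).add (h2.mul_left _)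
  rw [dv_iff] at hy
  by_cases h1 : (p : ℤ) ∣ y.re
  · by_cases h2 : (p : ℤ) ∣ y.imI
    · by_cases h3 : (p : ℤ) ∣ y.imJ
      · refine key ⟨0, 0, 0, -1⟩ ?_
        simpa using fun h4 => hy ⟨h1, h2, h3, h4⟩
      · refine key ⟨0, 0, -1, 0⟩ ?_
        simpa using h3
    · refine key ⟨0, -1, 0, 0⟩ ?_
      simpa using h2
  · refine key 1 ?_
    simpa using h1

/-- valuation of the norm -/
def vN (x : Mon) : ℕ := padicValInt p (normSq x.1)

theorem vN_mul (x y : Mon) : vN p (x * y) = vN p x + vN p y := by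
  simp only [vN, Submonoid.coe_mul, map_mul]
  exact padicValInt.mul (Mon_norm_pos x).ne' (Mon_norm_pos y).ne'

omit hp in
theorem vN_star (x : Mon) : vN p (starM x) = vN p x := by
  simp [vN, starM]

theorem padicValInt_sq {m : ℤ} (hm : m ≠ 0) : padicValInt p (m ^ 2) = 2 * padicValInt p m := by
  rw [sq, padicValInt.mul hm hm]; ring

theorem vN_smul {x y : Mon} {m n : ℤ} (hm : m ≠ 0) (hn : n ≠ 0) (h : m • x.1 = n • y.1) :
    2 * padicValInt p m + vN p x = 2 * padicValInt p n + vN p y := by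
  have := congrArg (fun q : Qt => padicValInt p (normSq q)) h
  simp only [normSq_smul] at this
  rw [padicValInt.mul (pow_ne_zero 2 hm) (Mon_norm_pos x).ne',
    padicValInt.mul (pow_ne_zero 2 hn) (Mon_norm_pos y).ne', padicValInt_sq p hm,
    padicValInt_sq p hn] at this
  exact this

theorem padicValInt_pow (k : ℕ) : padicValInt p ((p : ℤ) ^ k) = k := by
  induction k with
  | zero => simp
  | succ k ih =>
    rw [pow_succ, padicValInt_mul_eq_succ _ (pow_ne_zero k (prime_int p).ne_zero), ih]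

/-- the tree length at `p` -/
noncomputable def len (g : Gam) : ℕ := sInf {k | ∃ x : Mon, mk x = g ∧ vN p x = k}

omit hp in
theorem len_le (x : Mon) : len p (mk x) ≤ vN p x := Nat.sInf_le ⟨x, rfl, rfl⟩

omit hp in
theorem exists_len (g : Gam) : ∃ x : Mon, mk x = g ∧ vN p x = len p g := by
  obtain ⟨x, hx⟩ := mk_surj g
  exact Nat.sInf_mem (s := {k | ∃ x : Mon, mk x = g ∧ vN p x = k}) ⟨_, x, hx, rfl⟩

theorem len_prim (x : Mon) (hx : ¬ Dv p x.1) : len p (mk x) = vN p x := by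
  refine le_antisymm (len_le p x) ?_
  obtain ⟨y, hy, hy'⟩ := exists_len p (mk x)
  obtain ⟨m, n, hm, hn, h⟩ := mk_eq.mp hy
  have h1 := vN_smul p hm hn h
  have h2 : Dv ((p : ℤ) ^ padicValInt p m) (n • x.1) := by
    rw [← h]
    exact Dv.of_dvd ⟨_, rfl⟩ (padicValInt_dvd m)
  have h3 := dvd_of_dv_smul p hx h2
  have h4 := ((padicValInt_dvd_iff _ _).mp h3).resolve_left hn
  omega

theorem exists_decomp (x : Mon) :
    ∃ (k : ℕ) (y : Mon), x.1 = ((p : ℤ) ^ k) • y.1 ∧ ¬ Dv p y.1 := by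
  induction h : vN p x using Nat.strong_induction_on generalizing x with
  | _ n ih =>
    by_cases hx : Dv p x.1
    · obtain ⟨y, hy⟩ := hx
      have hym : y ∈ Mon := mem_of_smul _ x.2 hy
      have h1 := vN_smul p (x := x) (y := ⟨y, hym⟩) one_ne_zero (prime_int p).ne_zero
        (by simpa using hy)
      rw [padicValInt_self, padicValInt.one] at h1
      obtain ⟨k, z, hz, hz'⟩ := ih (vN p ⟨y, hym⟩) (by omega) ⟨y, hym⟩ rfl
      refine ⟨k + 1, z, ?_, hz'⟩
      rw [hy, pow_succ', mul_smul, ← hz]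
    · exact ⟨0, x, by simp, hx⟩

theorem len_decomp (x y : Mon) (k : ℕ) (h : x.1 = ((p : ℤ) ^ k) • y.1) (hy : ¬ Dv p y.1) :
    len p (mk x) + 2 * k = vN p x := by
  rw [mk_eq_of_smul _ h, len_prim p y hy]
  have h1 := vN_smul p (x := x) (y := y) one_ne_zero (pow_ne_zero k (prime_int p).ne_zero)
    (by simpa using h)
  rw [padicValInt_pow, padicValInt.one] at h1
  omega

theorem exists_prim (g : Gam) : ∃ x : Mon, mk x = g ∧ ¬ Dv p x.1 := by
  obtain ⟨x, rfl⟩ := mk_surj g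
  obtain ⟨k, y, h, hy⟩ := exists_decomp p x
  exact ⟨y, (mk_eq_of_smul _ h).symm, hy⟩

omit hp in
theorem len_one : len p 1 = 0 := by
  have := len_le p 1
  rw [mk_one] at this
  simpa [vN] using this

omit hp in
theorem len_inv (g : Gam) : len p g⁻¹ = len p g := by
  have key : ∀ g : Gam, len p g⁻¹ ≤ len p g := by
    intro g
    obtain ⟨x, rfl, hx⟩ := exists_len p g
    rw [← mk_star, ← hx, ← vN_star]
    exact len_le p _
  refine le_antisymm (key g) ?_
  simpa using key g⁻¹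

theorem len_mul (g h : Gam) : len p (g * h) ≤ len p g + len p h := by
  obtain ⟨x, rfl, hx⟩ := exists_len p g
  obtain ⟨y, rfl, hy⟩ := exists_len p h
  rw [← mk_mul, ← hx, ← hy, ← vN_mul]
  exact len_le p _

theorem len_par (x : Mon) : (len p (mk x) + vN p x) % 2 = 0 := by
  obtain ⟨k, y, h, hy⟩ := exists_decomp p x
  have := len_decomp p x y k h hy
  omega

theorem len_parity (g h : Gam) : (len p (g * h) + len p g + len p h) % 2 = 0 := by
  obtain ⟨x, rfl⟩ := mk_surj g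
  obtain ⟨y, rfl⟩ := mk_surj h
  have h1 := len_par p x
  have h2 := len_par p y
  have h3 := len_par p (x * y)
  rw [vN_mul, mk_mul] at h3
  omega

theorem len_four (hp2 : p ≠ 2) (a b c : Gam) :
    len p (a⁻¹ * c) + len p b ≤ max (len p (a⁻¹ * b) + len p c) (len p (b⁻¹ * c) + len p a) := by
  obtain ⟨x, rfl, hx⟩ := exists_prim p a
  obtain ⟨y, rfl, hy⟩ := exists_prim p b
  obtain ⟨z, rfl, hz⟩ := exists_prim p c
  simp only [← mk_star, ← mk_mul]
  obtain ⟨k1, w1, h1, hw1⟩ := exists_decomp p (starM x * y)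
  obtain ⟨k2, w2, h2, hw2⟩ := exists_decomp p (starM y * z)
  obtain ⟨k3, w3, h3, hw3⟩ := exists_decomp p (starM x * z)
  have e1 := len_decomp p _ _ _ h1 hw1
  have e2 := len_decomp p _ _ _ h2 hw2
  have e3 := len_decomp p _ _ _ h3 hw3
  rw [vN_mul, vN_star] at e1 e2 e3
  rw [len_prim p x hx, len_prim p y hy, len_prim p z hz]
  have hk : min k1 k2 ≤ k3 := by
    have d1 : Dv ((p : ℤ) ^ min k1 k2) (star x.1 * y.1) :=
      Dv.of_dvd ⟨_, h1⟩ (pow_dvd_pow _ (min_le_left _ _))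
    have d2 : Dv ((p : ℤ) ^ min k1 k2) (star y.1 * z.1) :=
      Dv.of_dvd ⟨_, h2⟩ (pow_dvd_pow _ (min_le_right _ _))
    have d3 := dv_four p hp2 hy d1 d2
    have h3' : star x.1 * z.1 = ((p : ℤ) ^ k3) • w3.1 := h3
    rw [h3'] at d3
    have := dvd_of_dv_smul p hw3 d3
    exact (pow_dvd_pow_iff (prime_int p).ne_zero (prime_int p).not_isUnit).mp this
  omega

end prime

end Pool.Agent.Lib.MP_7eef47_al
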