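import Mathlib
import Pool.Agent.Lib.MP_7eef47_al.Quat

set_option autoImplicit false

namespace Pool.Agent.Lib.MP_7eef47_al

open Quaternion

instance fact3 : Fact (Nat.Prime 3) := ⟨Nat.prime_three⟩
instance fact5 : Fact (Nat.Prime 5) := ⟨Nat.prime_five⟩

theorem normSq_coords (x : Qt) :
    normSq x = x.re ^ 2 + x.imI ^ 2 + x.imJ ^ 2 + x.imK ^ 2 := normSq_def' x

/-- a quaternion from its coordinates -/
def q4 (a b c d : ℤ) : Qt := ⟨a, b, c, d⟩

@[simp] theorem q4_re (a b c d : ℤ) : (q4 a b c d).re = a := rfl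
@[simp] theorem q4_imI (a b c d : ℤ) : (q4 a b c d).imI = b := rfl
@[simp] theorem q4_imJ (a b c d : ℤ) : (q4 a b c d).imJ = c := rfl
@[simp] theorem q4_imK (a b c d : ℤ) : (q4 a b c d).imK = d := rfl

theorem smul_q4 (m a b c d : ℤ) : m • q4 a b c d = q4 (m * a) (m * b) (m * c) (m * d) := by
  ext <;> simp only [Quaternion.re_smul, Quaternion.imI_smul, Quaternion.imJ_smul,
    Quaternion.imK_smul, smul_eq_mul, q4_re, q4_imI, q4_imJ, q4_imK]

theorem eq_q4 (x : Qt) : x = q4 x.re x.imI x.imJ x.imK := rfl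

theorem neg_one_q4 : (-1 : Qt) = q4 (-1) 0 0 0 := by
  ext <;> simp

theorem dv_star_mul (m e f g h : ℤ) (x : Qt)
    (h1 : m ∣ e * x.re + f * x.imI + g * x.imJ + h * x.imK)
    (h2 : m ∣ e * x.imI - f * x.re - g * x.imK + h * x.imJ)
    (h3 : m ∣ e * x.imJ + f * x.imK - g * x.re - h * x.imI)
    (h4 : m ∣ e * x.imK - f * x.imJ + g * x.imI - h * x.re) :
    Dv m (star (q4 e f g h) * x) := by
  rw [dv_iff]
  refine ⟨?_, ?_, ?_, ?_⟩
  · refine (congrArg (m ∣ ·) ?_).mpr h1; simp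
  · refine (congrArg (m ∣ ·) ?_).mpr h2; simp; ring
  · refine (congrArg (m ∣ ·) ?_).mpr h3; simp; ring
  · refine (congrArg (m ∣ ·) ?_).mpr h4; simp; ring

theorem zmod3 : ∀ a b c d : ZMod 3, a ^ 2 + b ^ 2 + c ^ 2 + d ^ 2 = 0 →
    ∃ f ∈ [(1 : ℤ), -1], ∃ g ∈ [(1 : ℤ), -1],
      a + f * b + g * c = 0 ∧ b - f * a - g * d = 0 ∧ c + f * d - g * a = 0 ∧
        d - f * c + g * b = 0 := by
  decide

theorem zmod5 : ∀ a b c d : ZMod 5, a ^ 2 + b ^ 2 + c ^ 2 + d ^ 2 = 0 →
    ∃ t ∈ [((1 : ℤ), (0 : ℤ), (0 : ℤ)), (-1, 0, 0), (0, 1, 0), (0, -1, 0), (0, 0, 1), (0, 0, -1)],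
      2 * a + t.1 * b + t.2.1 * c + t.2.2 * d = 0 ∧ 2 * b - t.1 * a - t.2.1 * d + t.2.2 * c = 0 ∧
        2 * c + t.1 * d - t.2.1 * a - t.2.2 * b = 0 ∧
        2 * d - t.1 * c + t.2.1 * b - t.2.2 * a = 0 := by
  decide +kernel

theorem factor3 (x : Qt) (h : (3 : ℤ) ∣ normSq x) :
    ∃ π : Qt, normSq π = 3 ∧ Dv 3 (star π * x) := by
  rw [normSq_coords] at h
  have h' := (ZMod.intCast_zmod_eq_zero_iff_dvd _ 3).mpr h
  push_cast at h'
  obtain ⟨f, hf, g, hg, h1, h2, h3, h4⟩ := zmod3 _ _ _ _ h'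
  refine ⟨q4 1 f g 0, ?_, dv_star_mul _ _ _ _ _ _ ?_ ?_ ?_ ?_⟩
  · rw [normSq_coords]
    simp only [List.mem_cons, List.not_mem_nil, or_false] at hf hg
    rcases hf with rfl | rfl <;> rcases hg with rfl | rfl <;> norm_num
  all_goals
    refine (ZMod.intCast_zmod_eq_zero_iff_dvd _ 3).mp ?_
    push_cast
  · linear_combination h1
  · linear_combination h2
  · linear_combination h3
  · linear_combination h4

theorem factor5 (x : Qt) (h : (5 : ℤ) ∣ normSq x) :
    ∃ π : Qt, normSq π = 5 ∧ Dv 5 (star π * x) := by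
  rw [normSq_coords] at h
  have h' := (ZMod.intCast_zmod_eq_zero_iff_dvd _ 5).mpr h
  push_cast at h'
  obtain ⟨t, ht, h1, h2, h3, h4⟩ := zmod5 _ _ _ _ h'
  refine ⟨q4 2 t.1 t.2.1 t.2.2, ?_, dv_star_mul _ _ _ _ _ _ ?_ ?_ ?_ ?_⟩
  · rw [normSq_coords]
    simp only [List.mem_cons, List.not_mem_nil, or_false] at ht
    rcases ht with rfl | rfl | rfl | rfl | rfl | rfl <;> norm_num
  all_goals
    refine (ZMod.intCast_zmod_eq_zero_iff_dvd _ 5).mp ?_
    push_cast
  · linear_combination h1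
  · linear_combination h2
  · linear_combination h3
  · linear_combination h4

/-- the generators -/
def gens : Set Gam := {g | ∃ x : Mon, mk x = g ∧ (normSq x.1 = 1 ∨ normSq x.1 = 3 ∨ normSq x.1 = 5)}

theorem gens_finite : gens.Finite := by
  have h1 : {x : Qt | normSq x ≤ 5}.Finite := by
    refine Set.Finite.subset (Set.Finite.image
      (fun t : ℤ × ℤ × ℤ × ℤ => q4 t.1 t.2.1 t.2.2.1 t.2.2.2)
      ((Set.finite_Icc (-3) 3).prod ((Set.finite_Icc (-3) 3).prod
        ((Set.finite_Icc (-3) 3).prod (Set.finite_Icc (-3) 3))))) ?_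
    intro x hx
    change normSq x ≤ 5 at hx
    rw [normSq_coords] at hx
    refine ⟨(x.re, x.imI, x.imJ, x.imK), ?_, rfl⟩
    simp only [Set.mem_prod, Set.mem_Icc]
    refine ⟨⟨?_, ?_⟩, ⟨?_, ?_⟩, ⟨?_, ?_⟩, ⟨?_, ?_⟩⟩ <;>
      nlinarith [sq_nonneg x.re, sq_nonneg x.imI, sq_nonneg x.imJ, sq_nonneg x.imK]
  have h2 : {x : Mon | normSq x.1 ≤ 5}.Finite :=
    Set.Finite.preimage (f := (Subtype.val : Mon → Qt)) (s := {x : Qt | normSq x ≤ 5})
      (Subtype.val_injective.injOn) h1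
  refine (h2.image mk).subset ?_
  rintro g ⟨x, rfl, hx⟩
  refine ⟨x, ?_, rfl⟩
  change normSq x.1 ≤ 5
  omega

theorem step_aux (p : ℕ) [Fact p.Prime]
    (hf : ∀ x : Qt, (p : ℤ) ∣ normSq x → ∃ π : Qt, normSq π = p ∧ Dv p (star π * x))
    (hm : ∀ π : Qt, normSq π = p → π ∈ Mon)
    (g : Gam) (n : ℕ) (h : len p g = n + 1) :
    ∃ π : Mon, normSq π.1 = p ∧ len p (mk π) = 1 ∧ len p ((mk π)⁻¹ * g) = n := by
  obtain ⟨x, rfl, hx⟩ := exists_prim p g
  rw [len_prim p x hx] at h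
  have hd : (p : ℤ) ∣ normSq x.1 := by
    by_contra hc
    rw [vN, padicValInt.eq_zero_of_not_dvd hc] at h
    omega
  obtain ⟨π, hπ, y, hy⟩ := hf _ hd
  let π' : Mon := ⟨π, hm π hπ⟩
  have hv : vN p π' = 1 := by
    simp only [vN, π', hπ]; exact padicValInt_self
  have hym : y ∈ Mon := mem_of_smul _ (starM π' * x).2 hy
  have e := vN_smul p (x := starM π' * x) (y := ⟨y, hym⟩) one_ne_zero (prime_int p).ne_zero
    (by rw [one_smul]; exact hy)
  rw [padicValInt_self, padicValInt.one, vN_mul, vN_star, hv, h] at e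
  have l1 : len p (mk π') ≤ 1 := hv ▸ len_le p π'
  have l2 : len p ((mk π')⁻¹ * mk x) ≤ n := by
    rw [← mk_star, ← mk_mul, mk_eq_of_smul (y := ⟨y, hym⟩) _ hy]
    have := len_le p ⟨y, hym⟩
    omega
  have l3 := len_mul p (mk π') ((mk π')⁻¹ * mk x)
  rw [mul_inv_cancel_left, len_prim p x hx, h] at l3
  exact ⟨π', hπ, by omega, by omega⟩

theorem mem3 (π : Qt) (h : normSq π = (3 : ℕ)) : π ∈ Mon := ⟨1, 0, by simpa using h⟩
theorem mem5 (π : Qt) (h : normSq π = (5 : ℕ)) : π ∈ Mon := ⟨0, 1, by simpa using h⟩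

/-- the tree of degree 4 -/
noncomputable def T3 : TreeLen Gam where
  len := len 3
  len_one := len_one 3
  len_inv := len_inv 3
  len_mul := len_mul 3
  step g n h := by
    obtain ⟨π, -, h1, h2⟩ := step_aux 3 factor3 mem3 g n h
    exact ⟨_, h1, h2⟩
  parity := len_parity 3
  four := len_four 3 (by norm_num)

/-- the tree of degree 6 -/
noncomputable def T5 : TreeLen Gam where
  len := len 5
  len_one := len_one 5
  len_inv := len_inv 5
  len_mul := len_mul 5
  step g n h := by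
    obtain ⟨π, -, h1, h2⟩ := step_aux 5 factor5 mem5 g n h
    exact ⟨_, h1, h2⟩
  parity := len_parity 5
  four := len_four 5 (by norm_num)

theorem len_zero_of_not_dvd (p : ℕ) (x : Mon) (h : ¬ (p : ℤ) ∣ normSq x.1) : len p (mk x) = 0 := by
  have := len_le p x
  rw [vN, padicValInt.eq_zero_of_not_dvd h] at this
  omega

theorem len_le_one (p : ℕ) [Fact p.Prime] (x : Mon) (h : normSq x.1 = p) : len p (mk x) ≤ 1 := by
  have := len_le p x
  rwa [vN, h, padicValInt_self] at this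

theorem exists_prim_both (g : Gam) : ∃ x : Mon, mk x = g ∧ ¬ Dv 3 x.1 ∧ ¬ Dv 5 x.1 := by
  obtain ⟨x, rfl, hx⟩ := exists_prim 3 g
  obtain ⟨k, y, h, hy⟩ := exists_decomp 5 x
  refine ⟨y, (mk_eq_of_smul _ h).symm, ?_, hy⟩
  rintro ⟨z, hz⟩
  exact hx ⟨((5 : ℕ) : ℤ) ^ k • z, by rw [h, hz, smul_comm]; rfl⟩

theorem norm_one_of_len (g : Gam) (h3 : len 3 g = 0) (h5 : len 5 g = 0) :
    ∃ x : Mon, mk x = g ∧ normSq x.1 = 1 := by
  obtain ⟨x, rfl, hx3, hx5⟩ := exists_prim_both g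
  rw [len_prim 3 x hx3] at h3
  rw [len_prim 5 x hx5] at h5
  refine ⟨x, rfl, ?_⟩
  have hn := (Mon_norm_pos x).ne'
  obtain ⟨a, b, h⟩ := x.2
  have n3 : ¬ ((3 : ℕ) : ℤ) ∣ normSq x.1 := by
    rw [vN, padicValInt.eq_zero_iff] at h3
    omega
  have n5 : ¬ ((5 : ℕ) : ℤ) ∣ normSq x.1 := by
    rw [vN, padicValInt.eq_zero_iff] at h5
    omega
  rw [h] at n3 n5 ⊢
  rcases a with _ | a
  · rcases b with _ | b
    · simp
    · exact absurd ⟨5 ^ b, by push_cast; ring⟩ n5
  · exact absurd ⟨3 ^ a * 5 ^ b, by push_cast; ring⟩ n3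

/-- the product structure -/
noncomputable def prodData : ProdData Gam gens where
  L1 := T3
  L2 := T5
  gen_le := by
    rintro s ⟨x, rfl, h | h | h⟩
    · have a := len_zero_of_not_dvd 3 x (by rw [h]; norm_num)
      have b := len_zero_of_not_dvd 5 x (by rw [h]; norm_num)
      change len 3 (mk x) + len 5 (mk x) ≤ 1
      omega
    · have a := len_le_one 3 x h
      have b := len_zero_of_not_dvd 5 x (by rw [h]; norm_num)
      change len 3 (mk x) + len 5 (mk x) ≤ 1
      omega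
    · have a := len_zero_of_not_dvd 3 x (by rw [h]; norm_num)
      have b := len_le_one 5 x h
      change len 3 (mk x) + len 5 (mk x) ≤ 1
      omega
  step1 g n h := by
    obtain ⟨π, h0, -, h2⟩ := step_aux 3 factor3 mem3 g n h
    exact ⟨mk π, ⟨π, rfl, Or.inr (Or.inl h0)⟩,
      len_zero_of_not_dvd 5 π (by rw [h0]; norm_num), h2⟩
  step2 g n h := by
    obtain ⟨π, h0, -, h2⟩ := step_aux 5 factor5 mem5 g n h
    exact ⟨mk π, ⟨π, rfl, Or.inr (Or.inr h0)⟩,
      len_zero_of_not_dvd 3 π (by rw [h0]; norm_num), h2⟩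
  base g h3 h5 := by
    obtain ⟨x, hx, h⟩ := norm_one_of_len g h3 h5
    exact ⟨x, hx, Or.inl h⟩

/-- the quaternion `i` -/
def qi : Mon := ⟨q4 0 1 0 0, 0, 0, by simp [normSq_coords]⟩
/-- the quaternion `j` -/
def qj : Mon := ⟨q4 0 0 1 0, 0, 0, by simp [normSq_coords]⟩
/-- the quaternion `2 + i` -/
def qa : Mon := ⟨q4 2 1 0 0, 0, 1, by simp [normSq_coords]⟩
/-- the quaternion `1 + i + j` -/
def qb : Mon := ⟨q4 1 1 1 0, 1, 0, by simp [normSq_coords]⟩

theorem len_pow (p : ℕ) [Fact p.Prime] (x : Mon) (hn : normSq x.1 = p) (hx : ¬ Dv p x.1)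
    (ht : ¬ (p : ℤ) ∣ 2 * x.1.re) (n : ℕ) : len p (mk x ^ n) = n := by
  have hsq : x.1 * x.1 = (2 * x.1.re) • x.1 + (p : ℤ) • (-1 : Qt) := by
    rw [← hn, normSq_coords, neg_one_q4, smul_q4]
    nth_rewrite 4 [eq_q4 x.1]
    rw [smul_q4]
    ext <;> simp <;> ring
  have key : ∀ n : ℕ, ∃ w : Qt, x.1 ^ (n + 1) = ((2 * x.1.re) ^ n) • x.1 + (p : ℤ) • w := by
    intro n
    induction n with
    | zero => exact ⟨0, by simp⟩
    | succ n ih =>
      obtain ⟨w, hw⟩ := ih
      refine ⟨((2 * x.1.re) ^ n) • (-1 : Qt) + w * x.1, ?_⟩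
      rw [pow_succ, hw, add_mul, smul_mul_assoc, hsq, smul_mul_assoc, smul_add, smul_add,
        pow_succ, mul_smul ((2 * x.1.re) ^ n), smul_comm ((2 * x.1.re) ^ n) (p : ℤ), add_assoc]
  have hv : ∀ n : ℕ, vN p (x ^ n) = n := by
    intro n
    induction n with
    | zero => simp [vN]
    | succ n ih =>
      rw [pow_succ, vN_mul, ih, vN, hn, padicValInt_self]
  rw [← mk_pow]
  rcases n with _ | n
  · rw [pow_zero, mk_one, len_one]
  · rw [len_prim p _ ?_, hv]
    obtain ⟨w, hw⟩ := key n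
    rintro ⟨z, hz⟩
    have e : ((2 * x.1.re) ^ n) • x.1 = (p : ℤ) • (z - w) := by
      rw [smul_sub, ← hz, SubmonoidClass.coe_pow, hw]; simp
    have := dvd_of_dv_smul p (k := 1) hx ⟨z - w, by rw [pow_one]; exact e⟩
    rw [pow_one] at this
    exact ht ((prime_int p).dvd_of_dvd_pow this)

theorem len_a (n : ℕ) : len 5 (mk qa ^ n) = n :=
  len_pow 5 qa (by simp [qa, normSq_coords]) (by rw [dv_iff]; simp [qa])
    (by simp [qa]) n

theorem len_b (n : ℕ) : len 3 (mk qb ^ n) = n :=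
  len_pow 3 qb (by simp [qb, normSq_coords]) (by rw [dv_iff]; simp [qb])
    (by simp [qb]) n

theorem comm_iff (x w : Mon) : mk w * mk x = mk x * mk w ↔
    (w.1 * x.1 = x.1 * w.1 ∨ w.1 * x.1 = -(x.1 * w.1)) := by
  rw [← mk_mul, ← mk_mul, mk_eq]
  simp only [Submonoid.coe_mul]
  constructor
  · rintro ⟨m, n, hm, hn, h⟩
    have h1 := congrArg (fun q : Qt => normSq q) h
    simp only [normSq_smul, map_mul] at h1
    have h2 : normSq w.1 * normSq x.1 ≠ 0 := (mul_pos (Mon_norm_pos w) (Mon_norm_pos x)).ne'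
    have h3 : m ^ 2 = n ^ 2 := by
      apply mul_right_cancel₀ h2
      rw [h1]; ring
    rcases sq_eq_sq_iff_eq_or_eq_neg.mp h3 with h4 | h4
    · left
      rw [h4] at h
      exact smul_cancel hn h
    · right
      rw [h4, neg_smul, neg_eq_iff_eq_neg, ← smul_neg] at h
      exact smul_cancel hn h
  · rintro (h | h)
    · exact ⟨1, 1, one_ne_zero, one_ne_zero, by rw [h]⟩
    · exact ⟨1, -1, one_ne_zero, by norm_num, by rw [h]; simp⟩

/-- the subgroup: the centraliser of the class of `i` -/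
noncomputable def Hsub : Subgroup Gam := Subgroup.centralizer {mk qi}

theorem mem_Hsub (g : Gam) : g ∈ Hsub ↔ mk qi * g = g * mk qi := by
  simp [Hsub, Subgroup.mem_centralizer_iff]

theorem mk_mem_Hsub (x : Mon) : mk x ∈ Hsub ↔
    (x.1.imJ = 0 ∧ x.1.imK = 0) ∨ (x.1.re = 0 ∧ x.1.imI = 0) := by
  rw [mem_Hsub, comm_iff]
  simp only [qi, Quaternion.ext_iff]
  simp
  omega

theorem gauss_mem (x : Mon) (hJ : x.1.imJ = 0) (hK : x.1.imK = 0) :
    mk x ∈ Subgroup.closure ({mk qi, mk qj, mk qa} : Set Gam) := by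
  have hi : mk qi ∈ Subgroup.closure ({mk qi, mk qj, mk qa} : Set Gam) :=
    Subgroup.subset_closure (by simp)
  have ha : mk qa ∈ Subgroup.closure ({mk qi, mk qj, mk qa} : Set Gam) :=
    Subgroup.subset_closure (by simp)
  induction h : (normSq x.1).toNat using Nat.strong_induction_on generalizing x with
  | _ n ih =>
    have hpos := Mon_norm_pos x
    have hN : normSq x.1 = x.1.re ^ 2 + x.1.imI ^ 2 := by rw [normSq_coords, hJ, hK]; ring
    by_cases h3 : (3 : ℤ) ∣ normSq x.1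
    · have h3' : (3 : ℤ) ∣ x.1.re ∧ (3 : ℤ) ∣ x.1.imI := by
        rw [hN] at h3
        have h' := (ZMod.intCast_zmod_eq_zero_iff_dvd _ 3).mpr h3
        push_cast at h'
        have key : ∀ a b : ZMod 3, a ^ 2 + b ^ 2 = 0 → a = 0 ∧ b = 0 := by decide
        exact ⟨(ZMod.intCast_zmod_eq_zero_iff_dvd _ 3).mp (key _ _ h').1,
          (ZMod.intCast_zmod_eq_zero_iff_dvd _ 3).mp (key _ _ h').2⟩
      obtain ⟨⟨a, ha'⟩, ⟨b, hb'⟩⟩ := h3'
      have e : x.1 = (3 : ℤ) • q4 a b 0 0 := by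
        rw [smul_q4]
        ext <;> simp [*]
      have hm := mem_of_smul _ x.2 e
      rw [mk_eq_of_smul (y := ⟨_, hm⟩) _ e]
      refine ih _ ?_ ⟨_, hm⟩ rfl rfl rfl
      have : normSq x.1 = 3 ^ 2 * normSq (q4 a b 0 0) := by rw [e, normSq_smul]
      change (normSq (q4 a b 0 0)).toNat < n
      omega
    · by_cases h5 : (5 : ℤ) ∣ normSq x.1
      · have h5' : ∃ f ∈ [(1 : ℤ), -1], (5 : ℤ) ∣ 2 * x.1.re + f * x.1.imI ∧
            (5 : ℤ) ∣ 2 * x.1.imI - f * x.1.re := by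
          rw [hN] at h5
          have h' := (ZMod.intCast_zmod_eq_zero_iff_dvd _ 5).mpr h5
          push_cast at h'
          have key : ∀ a b : ZMod 5, a ^ 2 + b ^ 2 = 0 →
            ∃ f ∈ [(1 : ℤ), -1], 2 * a + f * b = 0 ∧ 2 * b - f * a = 0 := by decide
          obtain ⟨f, hf, h1, h2⟩ := key _ _ h'
          refine ⟨f, hf, (ZMod.intCast_zmod_eq_zero_iff_dvd _ 5).mp ?_,
            (ZMod.intCast_zmod_eq_zero_iff_dvd _ 5).mp ?_⟩
          · push_cast; exact h1
          · push_cast; exact h2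
        obtain ⟨f, hf, ⟨a, ha'⟩, ⟨b, hb'⟩⟩ := h5'
        have key : ∀ π : Mon, π.1 = q4 2 (-f) 0 0 → normSq π.1 = 5 →
            mk π ∈ Subgroup.closure ({mk qi, mk qj, mk qa} : Set Gam) →
            mk x ∈ Subgroup.closure ({mk qi, mk qj, mk qa} : Set Gam) := by
          intro π hπ hπn hπc
          have e : (π * x).1 = (5 : ℤ) • q4 a b 0 0 := by
            rw [Submonoid.coe_mul, hπ, smul_q4]
            ext <;> simp [hJ, hK] <;> linarith
          have hm := mem_of_smul _ (π * x).2 e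
          have h1 : mk (π * x) ∈ Subgroup.closure ({mk qi, mk qj, mk qa} : Set Gam) := by
            rw [mk_eq_of_smul (y := ⟨_, hm⟩) _ e]
            refine ih _ ?_ ⟨_, hm⟩ rfl rfl rfl
            have : 5 * normSq x.1 = 5 ^ 2 * normSq (q4 a b 0 0) := by
              rw [← normSq_smul, ← e, Submonoid.coe_mul, map_mul, hπn]
            change (normSq (q4 a b 0 0)).toNat < n
            omega
          rw [mk_mul] at h1
          exact (Subgroup.mul_mem_cancel_left _ hπc).mp h1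
        simp only [List.mem_cons, List.not_mem_nil, or_false] at hf
        rcases hf with rfl | rfl
        · refine key (starM qa) (by ext <;> simp [starM, qa]) (by simp [starM, qa, normSq_coords]) ?_
          rw [mk_star]; exact Subgroup.inv_mem _ ha
        · exact key qa (by ext <;> simp [qa]) (by simp [qa, normSq_coords]) ha
      · have h1 : normSq x.1 = 1 := by
          obtain ⟨a, b, hab⟩ := x.2
          rw [hab] at h3 h5 ⊢
          rcases a with _ | a
          · rcases b with _ | b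
            · simp
            · exact absurd ⟨5 ^ b, by ring⟩ h5
          · exact absurd ⟨3 ^ a * 5 ^ b, by ring⟩ h3
        rw [hN] at h1
        by_cases hre : x.1.re = 0
        · have e : x.1 = x.1.imI • qi.1 := by
            ext <;> simp [qi, hre, hJ, hK]
          rw [mk_eq_of_smul _ e]; exact hi
        · have hI : x.1.imI = 0 := by
            have : 0 < x.1.re ^ 2 := by positivity
            nlinarith [sq_nonneg x.1.imI]
          have e : x.1 = x.1.re • (1 : Mon).1 := by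
            ext <;> simp [hI, hJ, hK]
          rw [mk_eq_of_smul _ e, mk_one]; exact Subgroup.one_mem _

theorem Hsub_eq : Hsub = Subgroup.closure ({mk qi, mk qj, mk qa} : Set Gam) := by
  apply le_antisymm
  · intro g hg
    obtain ⟨x, rfl⟩ := mk_surj g
    rcases (mk_mem_Hsub x).mp hg with ⟨h1, h2⟩ | ⟨h1, h2⟩
    · exact gauss_mem x h1 h2
    · have h := gauss_mem (x * qj) (by simp [qj, h1]) (by simp [qj, h2])
      rw [mk_mul] at h
      exact (Subgroup.mul_mem_cancel_right _ (Subgroup.subset_closure (by simp))).mp h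
  · rw [Subgroup.closure_le]
    rintro g (rfl | rfl | rfl) <;> simp only [SetLike.mem_coe, mk_mem_Hsub] <;> simp [qi, qj, qa]

theorem Hsub_fg : Hsub.FG := by
  rw [Hsub_eq]
  exact Subgroup.fg_iff _ |>.mpr ⟨_, rfl, by simp⟩

theorem Hsub_len (h : Gam) (hh : h ∈ Hsub) : len 3 h = 0 := by
  rw [Hsub_eq] at hh
  induction hh using Subgroup.closure_induction with
  | mem x hx =>
    rcases hx with rfl | rfl | rfl <;> apply len_zero_of_not_dvd <;>
      simp [qi, qj, qa, normSq_coords]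
  | one => exact len_one 3
  | mul x y _ _ h1 h2 => have := len_mul 3 x y; omega
  | inv x _ h => rwa [len_inv]

theorem base_mem (g : Gam) (h3 : len 3 g = 0) (h5 : len 5 g = 0) : g ∈ Hsub := by
  obtain ⟨x, rfl, hx⟩ := norm_one_of_len g h3 h5
  rw [mk_mem_Hsub]
  rw [normSq_coords] at hx
  by_cases h : x.1.re = 0 ∧ x.1.imI = 0
  · exact Or.inr h
  · left
    have : 0 < x.1.re ^ 2 + x.1.imI ^ 2 := by
      rcases not_and_or.mp h with h | h <;> positivity
    constructor <;> nlinarith [sq_nonneg x.1.imJ, sq_nonneg x.1.imK]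

theorem star_comm_aux {x y w : Qt} (hw : star w = -w)
    (h : (w * x = x * w ∧ w * y = y * w) ∨ (w * x = -(x * w) ∧ w * y = -(y * w))) :
    w * (star x * y) = (star x * y) * w := by
  rcases h with ⟨h1, h2⟩ | ⟨h1, h2⟩
  · have h3 := congrArg star h1
    rw [star_mul, star_mul, hw, mul_neg, neg_mul, neg_inj] at h3
    rw [← mul_assoc, ← h3, mul_assoc, h2, mul_assoc]
  · have h3 := congrArg star h1
    rw [star_neg, star_mul, star_mul, hw, mul_neg, neg_mul, neg_inj] at h3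
    have h4 : w * star x = -(star x * w) := by rw [h3, neg_neg]
    rw [← mul_assoc, h4, neg_mul, mul_assoc, h2, mul_neg, neg_neg, mul_assoc]

theorem logic {A A' B B' : Prop} (h1 : A ∨ A') (h2 : B ∨ B') (h3 : A ↔ B) :
    (A ∧ B) ∨ (A' ∧ B') := by
  tauto

theorem Hsub_malnormal : AlmostMalnormal Hsub := by
  intro g hg
  obtain ⟨y, rfl⟩ := mk_surj g
  let w : Mon := y * qi * starM y
  have hw : mk w = mk y * mk qi * (mk y)⁻¹ := by
    simp only [w, mk_mul, mk_star]
  have hwre : w.1.re = 0 := by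
    simp [w, qi, starM]; ring
  have hwstar : star w.1 = -w.1 := by
    ext <;> simp [hwre]
  have histar : star qi.1 = -qi.1 := by
    ext <;> simp [qi]
  have hwne : w.1.imJ ≠ 0 ∨ w.1.imK ≠ 0 := by
    by_contra hc
    push Not at hc
    apply hg
    have e : w.1 = w.1.imI • qi.1 := by
      ext <;> simp [qi, hwre, hc.1, hc.2]
    have e2 := mk_eq_of_smul _ e
    rw [hw] at e2
    rw [mem_Hsub]
    calc mk qi * mk y = (mk y * mk qi * (mk y)⁻¹) * mk y := by rw [e2]
      _ = mk y * mk qi := by group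
  choose r hr using mk_surj
  have hc : ∀ x, x ∈ Hsub ∧ (mk y)⁻¹ * x * mk y ∈ Hsub →
      (qi.1 * (r x).1 = (r x).1 * qi.1 ∨ qi.1 * (r x).1 = -((r x).1 * qi.1)) ∧
      (w.1 * (r x).1 = (r x).1 * w.1 ∨ w.1 * (r x).1 = -((r x).1 * w.1)) := by
    rintro x ⟨h1, h2⟩
    rw [← comm_iff, ← comm_iff, hr, hw]
    rw [mem_Hsub] at h1 h2
    refine ⟨h1, ?_⟩
    calc mk y * mk qi * (mk y)⁻¹ * x = mk y * (mk qi * ((mk y)⁻¹ * x * mk y)) * (mk y)⁻¹ := by group
      _ = mk y * (((mk y)⁻¹ * x * mk y) * mk qi) * (mk y)⁻¹ := by rw [h2]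
      _ = _ := by group
  refine Set.Finite.of_finite_image (f := fun x => (qi.1 * (r x).1 = (r x).1 * qi.1,
    w.1 * (r x).1 = (r x).1 * w.1)) (Set.toFinite _) ?_
  intro x hx x' hx' hxx
  obtain ⟨a1, a2⟩ := hc x hx
  obtain ⟨b1, b2⟩ := hc x' hx'
  simp only [Prod.mk.injEq, eq_iff_iff] at hxx
  have c1 := star_comm_aux histar (logic a1 b1 hxx.1)
  have c2 := star_comm_aux hwstar (logic a2 b2 hxx.2)
  have e : mk (starM (r x) * r x') = 1 := by
    have hu : (starM (r x) * r x').1 = star (r x).1 * (r x').1 := rfl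
    rw [← hu] at c1 c2
    generalize starM (r x) * r x' = u at c1 c2
    have d1 : u.1.imJ = 0 ∧ u.1.imK = 0 := by
      simp only [qi, Quaternion.ext_iff] at c1
      simp at c1
      omega
    have d2 : u.1.imI = 0 := by
      have k1 := congrArg (fun q : Qt => q.imJ) c2
      have k2 := congrArg (fun q : Qt => q.imK) c2
      simp [d1.1, d1.2, hwre] at k1 k2
      by_contra hne
      rcases hwne with h | h
      · apply h
        have : u.1.imI * w.1.imJ = 0 := by linarith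
        exact (mul_eq_zero.mp this).resolve_left hne
      · apply h
        have : u.1.imI * w.1.imK = 0 := by linarith
        exact (mul_eq_zero.mp this).resolve_left hne
    have e : u.1 = u.1.re • (1 : Mon).1 := by
      ext <;> simp [d1.1, d1.2, d2]
    rw [mk_eq_of_smul _ e, mk_one]
  rw [mk_mul, mk_star, hr, hr] at e
  exact inv_mul_eq_one.mp e

theorem Hsub_not_sqc : ¬ StronglyQuasiconvex gens Hsub :=
  prodData.not_sqc Hsub Hsub_len base_mem (mk qa) (by rw [mk_mem_Hsub]; simp [qa]) len_a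
    (mk qb) len_b

end Pool.Agent.Lib.MP_7eef47_al
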