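import Mathlib
import Pool.Agent.Lib.MP_7eef47_al.Main

set_option autoImplicit false

namespace Pool.Agent.Lib.MP_7eef47_al

open Quaternion

/-- the quaternion is congruent to `1` or to `1 + j + k` modulo 2 -/
def Typ (x : Qt) : Prop :=
  (x.re : ZMod 2) = 1 ∧ (x.imI : ZMod 2) = 0 ∧ (x.imJ : ZMod 2) = (x.imK : ZMod 2)

theorem Typ.mul {x y : Qt} (hx : Typ x) (hy : Typ y) : Typ (x * y) := by
  obtain ⟨a1, a2, a3⟩ := hx
  obtain ⟨b1, b2, b3⟩ := hy
  unfold Typ
  simp only [Quaternion.re_mul, Quaternion.imI_mul, Quaternion.imJ_mul, Quaternion.imK_mul]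
  push_cast
  rw [a1, a2, a3, b1, b2, b3]
  generalize (x.imK : ZMod 2) = s
  generalize (y.imK : ZMod 2) = t
  revert s t
  decide

theorem Typ.conj {x : Qt} (hx : Typ x) : Typ (star x) := by
  obtain ⟨a1, a2, a3⟩ := hx
  unfold Typ
  simp only [Quaternion.re_star, Quaternion.imI_star, Quaternion.imJ_star, Quaternion.imK_star]
  push_cast
  rw [a1, a2, a3]
  simp

theorem typ_one : Typ 1 := by
  unfold Typ
  simp

theorem norm_odd (x : Mon) : ((normSq x.1 : ℤ) : ZMod 2) = 1 := by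
  obtain ⟨a, b, h⟩ := x.2
  rw [h]
  push_cast
  have h3 : (3 : ZMod 2) = 1 := by decide
  have h5 : (5 : ZMod 2) = 1 := by decide
  rw [h3, h5]
  simp

theorem typ_of_mk_eq {x y : Mon} (h : mk x = mk y) (hx : Typ x.1) : Typ y.1 := by
  obtain ⟨m, n, hm, hn, e⟩ := mk_eq.mp h
  have hg : 0 < Int.gcd m n := Int.gcd_pos_of_ne_zero_left n hm
  obtain ⟨g, m', n', hg0, hc, rfl, rfl⟩ := Int.exists_gcd_one' hg
  have e' : m' • x.1 = n' • y.1 := by
    apply smul_cancel (m := (g : ℤ)) (by exact_mod_cast hg0.ne')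
    rw [← mul_smul, ← mul_smul, mul_comm (g : ℤ), mul_comm (g : ℤ)]
    exact e
  have hN := congrArg (fun q : Qt => ((normSq q : ℤ) : ZMod 2)) e'
  simp only [normSq_smul] at hN
  push_cast at hN
  rw [norm_odd, norm_odd] at hN
  obtain ⟨u, v, huv⟩ := Int.isCoprime_iff_gcd_eq_one.mpr hc
  have huv' := congrArg (fun z : ℤ => (z : ZMod 2)) huv
  push_cast at huv'
  have key : ∀ u v s t : ZMod 2, u * s + v * t = 1 → s ^ 2 * 1 = t ^ 2 * 1 → s = 1 ∧ t = 1 := by
    decide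
  obtain ⟨h1, h2⟩ := key _ _ _ _ huv' hN
  have c1 := congrArg (fun q : Qt => ((q.re : ℤ) : ZMod 2)) e'
  have c2 := congrArg (fun q : Qt => ((q.imI : ℤ) : ZMod 2)) e'
  have c3 := congrArg (fun q : Qt => ((q.imJ : ℤ) : ZMod 2)) e'
  have c4 := congrArg (fun q : Qt => ((q.imK : ℤ) : ZMod 2)) e'
  simp only [Quaternion.re_smul, Quaternion.imI_smul, Quaternion.imJ_smul, Quaternion.imK_smul,
    smul_eq_mul] at c1 c2 c3 c4
  push_cast at c1 c2 c3 c4
  rw [h1, h2, one_mul, one_mul] at c1 c2 c3 c4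
  obtain ⟨a1, a2, a3⟩ := hx
  exact ⟨c1 ▸ a1, c2 ▸ a2, c3 ▸ c4 ▸ a3⟩

/-- the torsion free subgroup of index four -/
def Lam : Subgroup Gam where
  carrier := {g | ∃ x : Mon, mk x = g ∧ Typ x.1}
  one_mem' := ⟨1, mk_one, typ_one⟩
  mul_mem' := by
    rintro g h ⟨x, rfl, hx⟩ ⟨y, rfl, hy⟩
    exact ⟨x * y, mk_mul x y, hx.mul hy⟩
  inv_mem' := by
    rintro g ⟨x, rfl, hx⟩
    exact ⟨starM x, mk_star x, hx.conj⟩

theorem mk_mem_Lam (x : Mon) : mk x ∈ Lam ↔ Typ x.1 :=
  ⟨fun ⟨_, hy, ht⟩ => typ_of_mk_eq hy ht, fun h => ⟨x, rfl, h⟩⟩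

theorem mk_eq_one_iff (x : Mon) : mk x = 1 ↔ x.1.imI = 0 ∧ x.1.imJ = 0 ∧ x.1.imK = 0 := by
  constructor
  · intro h
    rw [← mk_one, mk_eq] at h
    obtain ⟨m, n, hm, -, e⟩ := h
    have c2 := congrArg (fun q : Qt => q.imI) e
    have c3 := congrArg (fun q : Qt => q.imJ) e
    have c4 := congrArg (fun q : Qt => q.imK) e
    simp only [Quaternion.imI_smul, Quaternion.imJ_smul, Quaternion.imK_smul,
      smul_eq_mul, OneMemClass.coe_one, Quaternion.imI_one, Quaternion.imJ_one, Quaternion.imK_one,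
      mul_zero, mul_eq_zero] at c2 c3 c4
    exact ⟨c2.resolve_left hm, c3.resolve_left hm, c4.resolve_left hm⟩
  · rintro ⟨h1, h2, h3⟩
    have e : x.1 = x.1.re • (1 : Mon).1 := by
      ext <;> simp [h1, h2, h3]
    rw [mk_eq_of_smul _ e, mk_one]

theorem unit_typ (u : Mon) (hu : normSq u.1 = 1) (ht : Typ u.1) : mk u = 1 := by
  rw [mk_eq_one_iff]
  rw [normSq_coords] at hu
  have h0 : u.1.re ≠ 0 := by
    intro h
    have := ht.1
    rw [h] at this
    simp at this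
  have : 0 < u.1.re ^ 2 := by positivity
  refine ⟨?_, ?_, ?_⟩ <;> nlinarith [sq_nonneg u.1.imI, sq_nonneg u.1.imJ, sq_nonneg u.1.imK]

theorem exists_unit (x : Mon) : ∃ u : Mon, normSq u.1 = 1 ∧ Typ (x * u).1 := by
  have hN := norm_odd x
  rw [normSq_coords] at hN
  push_cast at hN
  have key : ∀ a b c d : ZMod 2, a ^ 2 + b ^ 2 + c ^ 2 + d ^ 2 = 1 →
      (a = 1 ∧ b = 0 ∧ c = d) ∨ (-b = 1 ∧ a = 0 ∧ d = -c) ∨ (-c = 1 ∧ -d = 0 ∧ a = b) ∨
        (-d = 1 ∧ c = 0 ∧ -b = a) := by decide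
  rcases key _ _ _ _ hN with h | h | h | h
  · exact ⟨1, by simp, by simpa [Typ] using h⟩
  · exact ⟨qi, by simp [qi, normSq_coords], by simpa [Typ, qi] using h⟩
  · exact ⟨qj, by simp [qj, normSq_coords], by simpa [Typ, qj] using h⟩
  · exact ⟨⟨q4 0 0 0 1, 0, 0, by simp [normSq_coords]⟩, by simp [normSq_coords],
      by simpa [Typ] using h⟩

theorem pow_form (x : Qt) (hx : Typ x) (n : ℕ) : ∃ A B : ℤ, (A : ZMod 2) = 1 ∧
    (B : ZMod 2) = (n : ZMod 2) ∧ x ^ n = q4 A (B * x.imI) (B * x.imJ) (B * x.imK) := by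
  obtain ⟨a1, a2, a3⟩ := hx
  induction n with
  | zero => exact ⟨1, 0, by simp, by simp, by ext <;> simp⟩
  | succ n ih =>
    obtain ⟨A, B, hA, hB, e⟩ := ih
    refine ⟨A * x.re - B * (x.imI ^ 2 + x.imJ ^ 2 + x.imK ^ 2), A + B * x.re, ?_, ?_, ?_⟩
    · push_cast
      rw [hA, a1, a2, a3]
      generalize (x.imK : ZMod 2) = s
      generalize (B : ZMod 2) = t
      revert s t
      decide
    · push_cast
      rw [hA, hB, a1]
      ring
    · rw [pow_succ, e]
      ext <;> simp <;> ring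

theorem Lam_pow (g : Gam) (hg : g ∈ Lam) (n : ℕ) (hn : 0 < n) (h : g ^ n = 1) : g = 1 := by
  induction n using Nat.strong_induction_on with
  | _ n ih =>
    rcases Nat.even_or_odd' n with ⟨m, rfl | rfl⟩
    · refine ih m (by omega) (by omega) ?_
      obtain ⟨y, hy, ht⟩ := Lam.pow_mem hg m
      rw [mul_comm, pow_mul, ← hy, ← mk_pow, mk_eq_one_iff] at h
      rw [← hy, mk_eq_one_iff]
      have h0 : y.1.re ≠ 0 := by
        intro h
        have := ht.1
        rw [h] at this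
        simp at this
      simp only [sq, Submonoid.coe_mul, Quaternion.imI_mul, Quaternion.imJ_mul,
        Quaternion.imK_mul] at h
      obtain ⟨h1, h2, h3⟩ := h
      refine ⟨?_, ?_, ?_⟩
      · have : y.1.re * y.1.imI = 0 := by linarith
        exact (mul_eq_zero.mp this).resolve_left h0
      · have : y.1.re * y.1.imJ = 0 := by linarith
        exact (mul_eq_zero.mp this).resolve_left h0
      · have : y.1.re * y.1.imK = 0 := by linarith
        exact (mul_eq_zero.mp this).resolve_left h0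
    · obtain ⟨x, rfl, ht⟩ := hg
      obtain ⟨A, B, -, hB, e⟩ := pow_form x.1 ht (2 * m + 1)
      rw [← mk_pow, mk_eq_one_iff, SubmonoidClass.coe_pow, e] at h
      have hB0 : B ≠ 0 := by
        rintro rfl
        push_cast at hB
        have h2 : (2 : ZMod 2) = 0 := by decide
        rw [h2] at hB
        simp at hB
      simp only [q4_imI, q4_imJ, q4_imK, mul_eq_zero] at h
      rw [mk_eq_one_iff]
      exact ⟨h.1.resolve_left hB0, h.2.1.resolve_left hB0, h.2.2.resolve_left hB0⟩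

theorem Lam_torsionFree (g : Lam) (h : IsOfFinOrder g) : g = 1 := by
  obtain ⟨n, hn, e⟩ := isOfFinOrder_iff_pow_eq_one.mp h
  exact Subtype.ext (Lam_pow g.1 g.2 n hn (by simpa using congrArg Subtype.val e))

/-- the generators of the subgroup -/
def gensL : Set Lam := {g | (g : Gam) ∈ gens}

theorem gensL_finite : gensL.Finite :=
  Set.Finite.preimage (f := (Subtype.val : Lam → Gam)) Subtype.val_injective.injOn gens_finite

theorem step_Lam (p : ℕ) [Fact p.Prime]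
    (hf : ∀ x : Qt, (p : ℤ) ∣ normSq x → ∃ π : Qt, normSq π = p ∧ Dv p (star π * x))
    (hm : ∀ π : Qt, normSq π = p → π ∈ Mon)
    (g : Gam) (n : ℕ) (h : len p g = n + 1) :
    ∃ π : Mon, Typ π.1 ∧ normSq π.1 = p ∧ len p (mk π) = 1 ∧ len p ((mk π)⁻¹ * g) = n := by
  obtain ⟨π, h1, h2, h3⟩ := step_aux p hf hm g n h
  obtain ⟨u, hu, ht⟩ := exists_unit π
  have hu0 : len p (mk u) = 0 := len_zero_of_not_dvd p u (by
    rw [hu]
    exact (prime_int p).not_dvd_one)
  have hui : len p (mk u)⁻¹ = 0 := by rw [len_inv, hu0]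
  refine ⟨π * u, ht, by rw [Submonoid.coe_mul, map_mul, h1, hu, mul_one], ?_, ?_⟩
  · have a := len_mul p (mk π) (mk u)
    have b := len_mul p (mk π * mk u) (mk u)⁻¹
    rw [mul_inv_cancel_right] at b
    rw [mk_mul]
    omega
  · have a := len_mul p (mk u)⁻¹ ((mk π)⁻¹ * g)
    have b := len_mul p (mk u) ((mk u)⁻¹ * ((mk π)⁻¹ * g))
    rw [mul_inv_cancel_left] at b
    rw [mk_mul, mul_inv_rev, mul_assoc]
    omega

/-- the tree of degree 4 for the subgroup -/
noncomputable def L3 : TreeLen Lam where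
  len g := len 3 g.1
  len_one := len_one 3
  len_inv g := len_inv 3 g.1
  len_mul g h := len_mul 3 g.1 h.1
  step g n h := by
    obtain ⟨π, ht, -, h1, h2⟩ := step_Lam 3 factor3 mem3 g.1 n h
    exact ⟨⟨mk π, π, rfl, ht⟩, h1, h2⟩
  parity g h := len_parity 3 g.1 h.1
  four a b c := len_four 3 (by norm_num) a.1 b.1 c.1

/-- the tree of degree 6 for the subgroup -/
noncomputable def L5 : TreeLen Lam where
  len g := len 5 g.1
  len_one := len_one 5
  len_inv g := len_inv 5 g.1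
  len_mul g h := len_mul 5 g.1 h.1
  step g n h := by
    obtain ⟨π, ht, -, h1, h2⟩ := step_Lam 5 factor5 mem5 g.1 n h
    exact ⟨⟨mk π, π, rfl, ht⟩, h1, h2⟩
  parity g h := len_parity 5 g.1 h.1
  four a b c := len_four 5 (by norm_num) a.1 b.1 c.1

/-- the product structure on the subgroup -/
noncomputable def prodL : ProdData Lam gensL where
  L1 := L3
  L2 := L5
  gen_le s hs := prodData.gen_le s.1 hs
  step1 g n h := by
    obtain ⟨π, ht, h0, -, h2⟩ := step_Lam 3 factor3 mem3 g.1 n h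
    exact ⟨⟨mk π, π, rfl, ht⟩, ⟨π, rfl, Or.inr (Or.inl h0)⟩,
      len_zero_of_not_dvd 5 π (by rw [h0]; norm_num), h2⟩
  step2 g n h := by
    obtain ⟨π, ht, h0, -, h2⟩ := step_Lam 5 factor5 mem5 g.1 n h
    exact ⟨⟨mk π, π, rfl, ht⟩, ⟨π, rfl, Or.inr (Or.inr h0)⟩,
      len_zero_of_not_dvd 3 π (by rw [h0]; norm_num), h2⟩
  base g h3 h5 := prodData.base g.1 h3 h5

theorem base_one (g : Lam) (h3 : len 3 g.1 = 0) (h5 : len 5 g.1 = 0) : g = 1 := by
  obtain ⟨x, hx, h⟩ := norm_one_of_len g.1 h3 h5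
  have ht : Typ x.1 := (mk_mem_Lam x).mp (hx ▸ g.2)
  exact Subtype.ext (hx ▸ unit_typ x h ht)

/-- the quaternion `1 + 2 i` -/
def qh : Mon := ⟨q4 1 2 0 0, 0, 1, by simp [normSq_coords]⟩
/-- the quaternion `1 + j + k` -/
def qc : Mon := ⟨q4 1 0 1 1, 1, 0, by simp [normSq_coords]⟩

theorem typ_qh : Typ qh.1 := by
  refine ⟨by simp [qh], ?_, by simp [qh]⟩
  simp only [qh, q4_imI]
  decide

theorem typ_qc : Typ qc.1 := by
  simp [Typ, qc]

/-- the generator of the cyclic subgroup -/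
noncomputable def hh : Lam := ⟨mk qh, qh, rfl, typ_qh⟩
/-- a generator in the other direction -/
noncomputable def cc : Lam := ⟨mk qc, qc, rfl, typ_qc⟩

theorem len_h (n : ℕ) : len 5 (mk qh ^ n) = n :=
  len_pow 5 qh (by simp [qh, normSq_coords]) (by rw [dv_iff]; simp [qh])
    (by simp [qh]) n

theorem len_c (n : ℕ) : len 3 (mk qc ^ n) = n :=
  len_pow 3 qc (by simp [qc, normSq_coords]) (by rw [dv_iff]; simp [qc])
    (by simp [qc]) n

theorem len_hz (n : ℤ) : len 5 (mk qh ^ n) = n.natAbs := by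
  rcases Int.eq_nat_or_neg n with ⟨k, rfl | rfl⟩
  · rw [zpow_natCast, len_h]; simp
  · rw [zpow_neg, len_inv, zpow_natCast, len_h]; simp

theorem qh_mem : mk qh ∈ Hsub := by
  rw [mk_mem_Hsub]; simp [qh]

theorem conj_h (g : Gam) (hg : g ∈ Hsub) (m : ℤ) : ∃ k : ℤ, g * mk qh ^ m = mk qh ^ k * g := by
  obtain ⟨x, rfl⟩ := mk_surj g
  rcases (mk_mem_Hsub x).mp hg with ⟨h1, h2⟩ | ⟨h1, h2⟩
  · have e : mk x * mk qh = mk qh * mk x := by
      rw [← mk_mul, ← mk_mul]
      congr 1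
      apply Subtype.ext
      ext <;> simp [qh, h1, h2] <;> ring
    exact ⟨m, (SemiconjBy.zpow_right (a := mk x) e m).eq⟩
  · have e : mk x * mk qh = (mk qh)⁻¹ * mk x := by
      rw [← mk_star, ← mk_mul, ← mk_mul]
      congr 1
      apply Subtype.ext
      ext <;> simp [qh, starM, h1, h2] <;> ring
    refine ⟨-m, ?_⟩
    have := (SemiconjBy.zpow_right (a := mk x) e m).eq
    rw [this, inv_zpow']

theorem unit_mem (u : Mon) (hu : normSq u.1 = 1) : mk u ∈ Hsub :=
  base_mem _ (len_zero_of_not_dvd 3 u (by rw [hu]; norm_num))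
    (len_zero_of_not_dvd 5 u (by rw [hu]; norm_num))

theorem normal_form (g : Gam) (hg : g ∈ Hsub) :
    ∃ (n : ℤ) (u : Mon), normSq u.1 = 1 ∧ g = mk qh ^ n * mk u := by
  rw [Hsub_eq] at hg
  induction hg using Subgroup.closure_induction with
  | mem x hx =>
    rcases hx with rfl | rfl | rfl
    · exact ⟨0, qi, by simp [qi, normSq_coords], by simp⟩
    · exact ⟨0, qj, by simp [qj, normSq_coords], by simp⟩
    · refine ⟨-1, qi, by simp [qi, normSq_coords], ?_⟩
      have e : qa = starM qh * qi := by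
        apply Subtype.ext
        ext <;> simp [qh, qa, qi, starM]
      rw [zpow_neg_one, ← mk_star, ← mk_mul, e]
  | one => exact ⟨0, 1, by simp, by simp [mk_one]⟩
  | mul x y _ _ h1 h2 =>
    obtain ⟨n, u, hu, rfl⟩ := h1
    obtain ⟨m, w, hw, rfl⟩ := h2
    obtain ⟨k, hk⟩ := conj_h (mk u) (unit_mem u hu) m
    refine ⟨n + k, u * w, by rw [Submonoid.coe_mul, map_mul, hu, hw, mul_one], ?_⟩
    rw [mk_mul, zpow_add, mul_assoc, ← mul_assoc (mk u), hk]
    simp only [mul_assoc]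
  | inv x _ h =>
    obtain ⟨n, u, hu, rfl⟩ := h
    have hu' : normSq (starM u).1 = 1 := by simpa [starM] using hu
    obtain ⟨k, hk⟩ := conj_h (mk (starM u)) (unit_mem _ hu') (-n)
    refine ⟨k, starM u, hu', ?_⟩
    rw [← hk, mk_star, mul_inv_rev, zpow_neg]

theorem mem_zpowers_hh (g : Lam) : g ∈ Subgroup.zpowers hh ↔ g.1 ∈ Hsub := by
  constructor
  · rintro ⟨n, rfl⟩
    exact Hsub.zpow_mem qh_mem n
  · intro hg
    obtain ⟨n, u, hu, e⟩ := normal_form g.1 hg
    have h1 : mk u ∈ Lam := by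
      have h2 : mk qh ^ n ∈ Lam := Lam.zpow_mem hh.2 n
      exact (Subgroup.mul_mem_cancel_left _ h2).mp (e ▸ g.2)
    rw [unit_typ u hu ((mk_mem_Lam u).mp h1), mul_one] at e
    exact ⟨n, Subtype.ext e.symm⟩

theorem hh_malnormal (g : Lam) (hg : g ∉ Subgroup.zpowers hh) (x : Lam)
    (hx : x ∈ Subgroup.zpowers hh) (hc : g⁻¹ * x * g ∈ Subgroup.zpowers hh) : x = 1 := by
  rw [mem_zpowers_hh] at hg hx hc
  have hfin := Hsub_malnormal g.1 hg
  apply Lam_torsionFree
  have h1 : IsOfFinOrder x.1 := by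
    rw [← finite_powers]
    refine hfin.subset ?_
    rintro _ ⟨k, rfl⟩
    refine ⟨Hsub.pow_mem hx k, ?_⟩
    have h2 := Hsub.pow_mem hc k
    have e : (g⁻¹ * x * g : Lam).1 ^ k = g.1⁻¹ * x.1 ^ k * g.1 := by
      have := conj_pow (a := g.1⁻¹) (b := x.1) (i := k)
      simpa using this
    exact e ▸ h2
  exact (Subgroup.subtype_injective Lam).isOfFinOrder_iff.mp h1

theorem hh_not_sqc : ¬ StronglyQuasiconvex gensL (Subgroup.zpowers hh) :=
  prodL.not_sqc _ (fun h hh' => Hsub_len h.1 ((mem_zpowers_hh h).mp hh'))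
    (fun g h3 h5 => base_one g h3 h5 ▸ Subgroup.one_mem _)
    hh (Subgroup.mem_zpowers hh) (fun n => len_h n) cc (fun n => len_c n)

theorem d5_hh (m n : ℤ) : L5.d (hh ^ m) (hh ^ n) = (n - m).natAbs := by
  have e : (hh ^ m)⁻¹ * hh ^ n = hh ^ (n - m) := by group
  unfold TreeLen.d
  rw [e]
  exact len_hz (n - m)

theorem hh_gen : hh ∈ gensL := ⟨qh, rfl, Or.inr (Or.inr (by simp [qh, normSq_coords]))⟩

theorem walk_hh (m : ℤ) (k : ℕ) :
    ∃ p : (SimpleGraph.mulCayley gensL).Walk (hh ^ m) (hh ^ (m + k)), p.length = k := by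
  induction k with
  | zero => exact ⟨SimpleGraph.Walk.nil.copy rfl (by simp), by simp⟩
  | succ k ih =>
    obtain ⟨p, hp⟩ := ih
    have adj : (SimpleGraph.mulCayley gensL).Adj (hh ^ (m + k)) (hh ^ (m + (k + 1 : ℕ))) := by
      rw [SimpleGraph.mulCayley_adj]
      refine ⟨?_, Or.inl ?_⟩
      · intro h
        have h1 := d5_hh (m + k) (m + (k + 1 : ℕ))
        rw [h, TreeLen.d_self] at h1
        push_cast at h1
        omega
      · have e : (hh ^ (m + k))⁻¹ * hh ^ (m + (k + 1 : ℕ)) = hh := by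
          push_cast
          group
        rw [e]
        exact hh_gen
    exact ⟨p.concat adj, by simp [hp]⟩

theorem dist_hh (m n : ℤ) :
    (SimpleGraph.mulCayley gensL).dist (hh ^ m) (hh ^ n) = (n - m).natAbs := by
  have key : ∀ m n : ℤ, m ≤ n →
      (SimpleGraph.mulCayley gensL).dist (hh ^ m) (hh ^ n) = (n - m).natAbs := by
    intro m n h
    obtain ⟨k, rfl⟩ := Int.le.dest h
    obtain ⟨p, hp⟩ := walk_hh m k
    have a := SimpleGraph.dist_le p
    have b := prodL.le_dist (hh ^ m) (hh ^ (m + k))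
    have c : prodL.L2.d (hh ^ m) (hh ^ (m + k)) = (m + k - m).natAbs := d5_hh m (m + k)
    omega
  rcases le_total m n with h | h
  · exact key m n h
  · rw [SimpleGraph.dist_comm, key n m h]
    omega

theorem wordDist_hh (m n : ℤ) : wordDist gensL (hh ^ m) (hh ^ n) = |(m : ℝ) - n| := by
  unfold wordDist
  rw [dist_hh, Nat.cast_natAbs, abs_sub_comm]
  push_cast
  rfl

theorem hh_convex (x : Lam) (hx : x ∈ Subgroup.zpowers hh) (y : Lam)
    (hy : y ∈ Subgroup.zpowers hh) (z : Lam)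
    (h : wordDist gensL x z + wordDist gensL z y = wordDist gensL x y) :
    z ∈ Subgroup.zpowers hh := by
  obtain ⟨m, rfl⟩ := hx
  obtain ⟨n, rfl⟩ := hy
  simp only at h
  unfold wordDist at h
  have h' : (SimpleGraph.mulCayley gensL).dist (hh ^ m) z +
      (SimpleGraph.mulCayley gensL).dist z (hh ^ n) = (n - m).natAbs := by
    rw [← dist_hh]
    exact_mod_cast h
  have a : L3.d (hh ^ m) z + L5.d (hh ^ m) z ≤ _ := prodL.le_dist (hh ^ m) z
  have b : L3.d z (hh ^ n) + L5.d z (hh ^ n) ≤ _ := prodL.le_dist z (hh ^ n)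
  have c := L5.d_tri (hh ^ m) z (hh ^ n)
  rw [d5_hh] at c
  obtain ⟨k, hk1, hk2⟩ : ∃ k : ℤ, (k - m).natAbs = L5.d (hh ^ m) z ∧
      (k - n).natAbs = L5.d z (hh ^ n) := by
    rcases le_total m n with h | h
    · exact ⟨m + L5.d (hh ^ m) z, by omega, by omega⟩
    · exact ⟨m - L5.d (hh ^ m) z, by omega, by omega⟩
  have f := L5.d_four (hh ^ m) (hh ^ n) z (hh ^ k)
  rw [d5_hh, d5_hh, d5_hh, L5.d_comm (hh ^ n) z] at f
  have g5 : L5.d z (hh ^ k) = 0 := by omega
  have g3 : L3.d z (hh ^ k) = 0 := by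
    have t := L3.d_tri z (hh ^ m) (hh ^ k)
    have u := L3.d_comm z (hh ^ m)
    have v : L3.d (hh ^ m) (hh ^ k) = 0 :=
      Hsub_len _ ((mem_zpowers_hh _).mp (Subgroup.mul_mem _
        (Subgroup.inv_mem _ (Subgroup.zpow_mem_zpowers hh m)) (Subgroup.zpow_mem_zpowers hh k)))
    omega
  have e := base_one (z⁻¹ * hh ^ k) g3 g5
  rw [inv_mul_eq_one] at e
  exact e ▸ Subgroup.zpow_mem_zpowers hh k

end Pool.Agent.Lib.MP_7eef47_al
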